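import Pool.Agent.H31.CN.T2

/-!
# The Epstein zeta function of a binary form
-/

set_option autoImplicit false

open MeasureTheory Set Filter Asymptotics
open scoped Real Topology

namespace Pool.Agent.H26.CN.EPS

open Pool.Agent.H31.CN

/-- the exponent -/
noncomputable def eq' (A B Δ : ℝ) (v : ℤ × ℤ) : ℝ := 2 * π / Real.sqrt Δ * qd A B Δ v

theorem eq'_zero (A B Δ : ℝ) : eq' A B Δ 0 = 0 := by
  unfold eq' qd
  simp

theorem Th_eq (A B Δ t : ℝ) : Th A B Δ t = ∑' v, Real.exp (-eq' A B Δ v * t) := by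
  unfold Th eq'
  refine tsum_congr fun v => ?_
  congr 1
  ring

theorem sum_eq (hTHE : T_THE) {A B Δ t : ℝ} (hA : 0 < A) (hD : 0 < Δ) (ht : 0 < t) :
    Summable (fun v => Real.exp (-eq' A B Δ v * t)) := by
  refine (hTHE A B Δ t hA hD ht).1.congr fun v => ?_
  unfold eq'
  congr 1
  ring

/-- lower bound of the form -/
theorem qd_lower (A B Δ : ℝ) (hA : 0 < A) (hD : 0 < Δ) :
    ∃ c : ℝ, 0 < c ∧ ∀ v : ℤ × ℤ, c * ‖v‖ ^ 2 ≤ qd A B Δ v := by
  set M : ℝ := 4 * A * (1 / Δ + (2 + 2 * B ^ 2 / Δ) / (4 * A ^ 2)) with hM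
  have hM0 : 0 < M := by positivity
  refine ⟨1 / M, by positivity, fun v => ?_⟩
  have hq : 4 * A * qd A B Δ v = (2 * A * v.1 + B * v.2) ^ 2 + Δ * (v.2 : ℝ) ^ 2 := by
    unfold qd
    field_simp
  have hy : (v.2 : ℝ) ^ 2 ≤ 1 / Δ * (4 * A * qd A B Δ v) := by
    rw [hq, div_mul_eq_mul_div, one_mul, le_div_iff₀ hD]
    nlinarith [sq_nonneg (2 * A * v.1 + B * v.2)]
  have hw : (2 * A * v.1 + B * v.2) ^ 2 ≤ 4 * A * qd A B Δ v := by
    rw [hq]
    nlinarith [mul_nonneg hD.le (sq_nonneg (v.2 : ℝ))]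
  have hx : (v.1 : ℝ) ^ 2 ≤ (2 + 2 * B ^ 2 / Δ) / (4 * A ^ 2) * (4 * A * qd A B Δ v) := by
    have h1 : (2 * A * (v.1 : ℝ)) ^ 2 ≤ 2 * (2 * A * v.1 + B * v.2) ^ 2 +
        2 * B ^ 2 * (v.2 : ℝ) ^ 2 := by
      nlinarith [sq_nonneg (2 * A * (v.1 : ℝ) + 2 * B * v.2)]
    have h2 : 2 * B ^ 2 * (v.2 : ℝ) ^ 2 ≤ 2 * B ^ 2 / Δ * (4 * A * qd A B Δ v) := by
      calc 2 * B ^ 2 * (v.2 : ℝ) ^ 2 ≤ 2 * B ^ 2 * (1 / Δ * (4 * A * qd A B Δ v)) := by gcongr
        _ = _ := by ring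
    rw [div_mul_eq_mul_div, le_div_iff₀ (by positivity)]
    nlinarith
  have h0 : 0 ≤ 4 * A * qd A B Δ v := le_trans (sq_nonneg _) hw
  have hn : ‖v‖ ^ 2 ≤ M * qd A B Δ v := by
    rw [Prod.norm_def]
    have e : M * qd A B Δ v = 1 / Δ * (4 * A * qd A B Δ v) +
        (2 + 2 * B ^ 2 / Δ) / (4 * A ^ 2) * (4 * A * qd A B Δ v) := by
      rw [hM]
      ring
    rcases max_cases ‖v.1‖ ‖v.2‖ with h | h
    · rw [h.1, Int.norm_eq_abs, sq_abs, e]
      have : 0 ≤ 1 / Δ * (4 * A * qd A B Δ v) := by positivity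
      linarith
    · rw [h.1, Int.norm_eq_abs, sq_abs, e]
      have : 0 ≤ (2 + 2 * B ^ 2 / Δ) / (4 * A ^ 2) * (4 * A * qd A B Δ v) := by positivity
      linarith
  rw [one_div, inv_mul_le_iff₀ hM0]
  exact hn

theorem norm_ge_one {v : ℤ × ℤ} (hv : v ≠ 0) : 1 ≤ ‖v‖ := by
  rw [Prod.norm_def]
  by_cases h1 : v.1 = 0
  · have h2 : v.2 ≠ 0 := fun h2 => hv (Prod.ext h1 h2)
    refine le_max_of_le_right ?_
    rw [Int.norm_eq_abs]
    exact_mod_cast Int.one_le_abs h2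
  · refine le_max_of_le_left ?_
    rw [Int.norm_eq_abs]
    exact_mod_cast Int.one_le_abs h1

theorem eq'_lower (A B Δ : ℝ) (hA : 0 < A) (hD : 0 < Δ) :
    ∃ m : ℝ, 0 < m ∧ ∀ v : ℤ × ℤ, v ≠ 0 → m ≤ eq' A B Δ v := by
  obtain ⟨c, hc, h⟩ := qd_lower A B Δ hA hD
  have hs : 0 < Real.sqrt Δ := Real.sqrt_pos.2 hD
  refine ⟨2 * π / Real.sqrt Δ * c, by positivity, fun v hv => ?_⟩
  unfold eq'
  refine mul_le_mul_of_nonneg_left ?_ (by positivity)
  have h1 := norm_ge_one hv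
  calc c = c * 1 := (mul_one c).symm
    _ ≤ c * ‖v‖ ^ 2 := by gcongr; nlinarith
    _ ≤ _ := h v

theorem Th_sub (hTHE : T_THE) {A B Δ t : ℝ} (hA : 0 < A) (hD : 0 < Δ) (ht : 0 < t) :
    HasSum (fun v : ℤ × ℤ => if v = 0 then 0 else Real.exp (-eq' A B Δ v * t))
      (Th A B Δ t - 1) := by
  have h := sum_eq hTHE (B := B) hA hD ht
  have h1 := h.hasSum
  rw [← Th_eq] at h1
  have h2 := h1.update 0 0
  rw [eq'_zero] at h2
  have e : (0 : ℝ) - Real.exp (-0 * t) + Th A B Δ t = Th A B Δ t - 1 := by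
    simp
    ring
  rw [e] at h2
  refine h2.congr_fun ?_ |> fun x => x
  intro v
  by_cases hv : v = 0
  · rw [hv]; simp
  · rw [Function.update_of_ne hv, if_neg hv]

theorem Th_nonneg (hTHE : T_THE) {A B Δ t : ℝ} (hA : 0 < A) (hD : 0 < Δ) (ht : 0 < t) :
    0 ≤ Th A B Δ t - 1 := by
  refine (Th_sub hTHE (B := B) hA hD ht).nonneg fun v => ?_
  split_ifs
  · exact le_rfl
  · exact (Real.exp_pos _).le

theorem Th_decay (hTHE : T_THE) {A B Δ : ℝ} (hA : 0 < A) (hD : 0 < Δ) :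
    ∃ m : ℝ, 0 < m ∧ ∀ t : ℝ, 1 ≤ t →
      Th A B Δ t - 1 ≤ (Th A B Δ 1 - 1) * Real.exp m * Real.exp (-m * t) := by
  obtain ⟨m, hm, h⟩ := eq'_lower A B Δ hA hD
  refine ⟨m, hm, fun t ht => ?_⟩
  have h1 := Th_sub hTHE (B := B) hA hD (zero_lt_one.trans_le ht)
  have h2 := (Th_sub hTHE (B := B) hA hD zero_lt_one).mul_right (Real.exp m * Real.exp (-m * t))
  rw [mul_assoc]
  refine hasSum_le (fun v => ?_) h1 h2
  split_ifs with hv
  · simp
  · rw [← Real.exp_add, ← Real.exp_add, Real.exp_le_exp]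
    have := h v hv
    nlinarith

theorem Th_contAt (hTHE : T_THE) {A B Δ t : ℝ} (hA : 0 < A) (hD : 0 < Δ) (ht : 0 < t)
    (hQ : ∀ v, 0 ≤ eq' A B Δ v) : ContinuousAt (Th A B Δ) t := by
  have h : ContinuousOn (Th A B Δ) (Ioi (t / 2)) := by
    have e : Th A B Δ = fun t => ∑' v, Real.exp (-eq' A B Δ v * t) := funext fun t => Th_eq A B Δ t
    rw [e]
    refine continuousOn_tsum (fun v => by fun_prop) (sum_eq hTHE (B := B) hA hD (half_pos ht)) ?_
    intro v x hx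
    rw [Real.norm_eq_abs, abs_of_pos (Real.exp_pos _), Real.exp_le_exp]
    have := hQ v
    have hx' : t / 2 < x := hx
    nlinarith
  exact h.continuousAt (Ioi_mem_nhds (half_lt_self ht))

theorem isBigO_top (hTHE : T_THE) {A B Δ : ℝ} (hA : 0 < A) (hD : 0 < Δ) (r : ℝ) :
    (fun t : ℝ => ((Th A B Δ t : ℝ) : ℂ) - 1) =O[atTop] (fun t : ℝ => t ^ r) := by
  obtain ⟨m, hm, h⟩ := Th_decay hTHE (B := B) hA hD
  have h1 : (fun t : ℝ => ((Th A B Δ t : ℝ) : ℂ) - 1) =O[atTop]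
      (fun t : ℝ => Real.exp (-m * t)) := by
    refine IsBigO.of_bound ((Th A B Δ 1 - 1) * Real.exp m) ?_
    filter_upwards [eventually_ge_atTop 1] with t ht
    have h2 := h t ht
    have h3 := Th_nonneg hTHE (B := B) hA hD (zero_lt_one.trans_le ht)
    rw [show ((Th A B Δ t : ℝ) : ℂ) - 1 = ((Th A B Δ t - 1 : ℝ) : ℂ) by push_cast; ring,
      Complex.norm_real, Real.norm_eq_abs, abs_of_nonneg h3, Real.norm_eq_abs,
      abs_of_pos (Real.exp_pos _)]
    exact h2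
  exact h1.trans (isLittleO_exp_neg_mul_rpow_atTop hm r).isBigO

theorem summable_pow {A B Δ : ℝ} (hA : 0 < A) (hD : 0 < Δ) {σ : ℝ} (hσ : 1 < σ) :
    Summable (fun v : ℤ × ℤ => (if v = 0 then (0 : ℝ) else 1) / (eq' A B Δ v) ^ σ) := by
  obtain ⟨c, hc, h⟩ := qd_lower A B Δ hA hD
  have hs : 0 < Real.sqrt Δ := Real.sqrt_pos.2 hD
  have h1 := EisensteinSeries.summable_one_div_norm_rpow (k := 2 * σ) (by linarith)
  have h2 : Summable (fun v : ℤ × ℤ => ‖v‖ ^ (-(2 * σ))) := by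
    rw [← (finTwoArrowEquiv ℤ).summable_iff]
    refine h1.congr fun m => ?_
    simp only [Function.comp_apply]
    congr 1
    rw [Prod.norm_def]
    have e : (finTwoArrowEquiv ℤ) m = (m 0, m 1) := rfl
    rw [e, Pi.norm_def]
    simp [Finset.univ_fin2 ]
  have h3 := h2.mul_left ((2 * π / Real.sqrt Δ * c) ^ (-σ))
  refine Summable.of_nonneg_of_le (fun v => ?_) (fun v => ?_) h3
  · refine div_nonneg ?_ (Real.rpow_nonneg ?_ _)
    · split_ifs <;> norm_num
    · unfold eq'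
      have := h v
      have : 0 ≤ qd A B Δ v := le_trans (by positivity) this
      positivity
  · by_cases hv : v = 0
    · rw [if_pos hv, zero_div]
      positivity
    · rw [if_neg hv, one_div, ← Real.rpow_neg]
      · have hn := norm_ge_one hv
        have hn0 : 0 < ‖v‖ := by linarith
        have e : (2 * π / Real.sqrt Δ * c) ^ (-σ) * ‖v‖ ^ (-(2 * σ)) =
            (2 * π / Real.sqrt Δ * (c * ‖v‖ ^ 2)) ^ (-σ) := by
          rw [show -(2 * σ) = ((2 : ℕ) : ℝ) * (-σ) by push_cast; ring, Real.rpow_mul hn0.le,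
            Real.rpow_natCast, ← Real.mul_rpow (by positivity) (by positivity)]
          congr 1
          ring
        rw [e]
        refine Real.rpow_le_rpow_of_nonpos (by positivity) ?_ (by linarith)
        unfold eq'
        have := h v
        gcongr
      · unfold eq'
        have := h v
        have : 0 ≤ qd A B Δ v := le_trans (by positivity) this
        positivity

/-- the functional equation pair -/
noncomputable def FEP (hTHE : T_THE) (A B Δ : ℝ) (hA : 0 < A) (hD : 0 < Δ)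
    (hQ : ∀ v, 0 ≤ eq' A B Δ v) : WeakFEPair ℂ where
  f := fun t => ((Th A B Δ t : ℝ) : ℂ)
  g := fun t => ((Th A B Δ t : ℝ) : ℂ)
  k := 1
  ε := 1
  f₀ := 1
  g₀ := 1
  hf_int := by
    refine ContinuousOn.locallyIntegrableOn (fun t ht => ?_) measurableSet_Ioi
    exact (Complex.continuous_ofReal.continuousAt.comp
      (Th_contAt hTHE (B := B) hA hD ht hQ)).continuousWithinAt
  hg_int := by
    refine ContinuousOn.locallyIntegrableOn (fun t ht => ?_) measurableSet_Ioi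
    exact (Complex.continuous_ofReal.continuousAt.comp
      (Th_contAt hTHE (B := B) hA hD ht hQ)).continuousWithinAt
  hk := one_pos
  hε := one_ne_zero
  h_feq := fun x hx => by
    have hx' : (0 : ℝ) < x := hx
    have := (hTHE A B Δ x hA hD hx').2
    rw [one_div, this, Real.rpow_one]
    push_cast
    simp
  hf_top := fun r => isBigO_top hTHE hA hD r
  hg_top := fun r => isBigO_top hTHE hA hD r

/-- the entire part at the central point -/
theorem L0_half (hTHE : T_THE) (A B Δ : ℝ) (hA : 0 < A) (hD : 0 < Δ)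
    (hQ : ∀ v, 0 ≤ eq' A B Δ v)
    (hI : IntegrableOn (fun t : ℝ => (Th A B Δ t - 1) * t ^ (-(1 / 2) : ℝ)) (Ioi 1)) :
    (FEP hTHE A B Δ hA hD hQ).Λ₀ (1 / 2) =
      2 * ((∫ t in Ioi (1 : ℝ), (Th A B Δ t - 1) * t ^ (-(1 / 2) : ℝ) : ℝ) : ℂ) := by
  set f1 : ℝ → ℂ := (Ioi (1 : ℝ)).indicator (fun t => ((Th A B Δ t : ℝ) : ℂ) - 1) with hf1
  have hpow : ∀ t : ℝ, 0 < t → (t : ℂ) ^ ((1 / 2 : ℂ) - 1) = ((t ^ (-(1 / 2) : ℝ) : ℝ) : ℂ) := by
    intro t ht
    rw [Complex.ofReal_cpow ht.le]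
    congr 1
    push_cast
    ring
  have hc1 : MellinConvergent f1 (1 / 2) := by
    have h1 : IntegrableOn (fun t : ℝ => (((Th A B Δ t - 1) * t ^ (-(1 / 2) : ℝ) : ℝ) : ℂ))
        (Ioi 1) := hI.ofReal
    have h2 : IntegrableOn ((Ioi (1 : ℝ)).indicator (fun t : ℝ => (((Th A B Δ t - 1) *
        t ^ (-(1 / 2) : ℝ) : ℝ) : ℂ))) (Ioi 0) := by
      rw [integrableOn_indicator_iff measurableSet_Ioi, Ioi_inter_Ioi]
      simpa using h1
    refine h2.congr_fun (fun t ht => ?_) measurableSet_Ioi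
    have ht0 : (0 : ℝ) < t := ht
    rw [hf1]
    by_cases h : t ∈ Ioi (1 : ℝ)
    · simp only [indicator_of_mem h]
      rw [hpow t ht0, smul_eq_mul]
      push_cast
      ring
    · simp only [indicator_of_notMem h, smul_zero]
  have hm1 : mellin f1 (1 / 2) =
      ((∫ t in Ioi (1 : ℝ), (Th A B Δ t - 1) * t ^ (-(1 / 2) : ℝ) : ℝ) : ℂ) := by
    rw [← integral_complex_ofReal]
    unfold mellin
    have h3 : ∀ t ∈ Ioi (0 : ℝ), (t : ℂ) ^ ((1 / 2 : ℂ) - 1) • f1 t =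
        (Ioi (1 : ℝ)).indicator (fun t : ℝ => (((Th A B Δ t - 1) *
        t ^ (-(1 / 2) : ℝ) : ℝ) : ℂ)) t := by
      intro t ht
      have ht0 : (0 : ℝ) < t := ht
      rw [hf1]
      by_cases h : t ∈ Ioi (1 : ℝ)
      · simp only [indicator_of_mem h]
        rw [hpow t ht0, smul_eq_mul]
        push_cast
        ring
      · simp only [indicator_of_notMem h, smul_zero]
    rw [setIntegral_congr_fun measurableSet_Ioi h3, setIntegral_indicator measurableSet_Ioi,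
      Ioi_inter_Ioi]
    simp
  have hmod : ∀ t ∈ Ioi (0 : ℝ), (FEP hTHE A B Δ hA hD hQ).f_modif t =
      f1 t + (t : ℂ) ^ (-1 : ℂ) • f1 t⁻¹ := by
    intro t ht
    have ht0 : (0 : ℝ) < t := ht
    unfold WeakFEPair.f_modif
    rw [Pi.add_apply]
    congr 1
    rw [hf1]
    by_cases h : t ∈ Ioo (0 : ℝ) 1
    · have h' : t⁻¹ ∈ Ioi (1 : ℝ) := (one_lt_inv₀ h.1).2 h.2
      rw [indicator_of_mem h, indicator_of_mem h']
      have h4 := (hTHE A B Δ t⁻¹ hA hD (inv_pos.2 ht0)).2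
      rw [inv_inv] at h4
      change ((Th A B Δ t : ℝ) : ℂ) - (1 * ((t ^ (-(1 : ℝ)) : ℝ) : ℂ)) • (1 : ℂ) = _
      rw [h4, Complex.cpow_neg_one, Real.rpow_neg_one]
      push_cast
      simp only [smul_eq_mul]
      ring
    · have h' : t⁻¹ ∉ Ioi (1 : ℝ) := by
        intro h'
        exact h ⟨ht0, (one_lt_inv₀ ht0).1 h'⟩
      rw [indicator_of_notMem h, indicator_of_notMem h', smul_zero]
  have hc2 : MellinConvergent (fun t : ℝ => (t : ℂ) ^ (-1 : ℂ) • f1 t⁻¹) (1 / 2) := by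
    rw [MellinConvergent.cpow_smul]
    have := MellinConvergent.comp_rpow (f := f1) (s := 1 / 2 + -1) (a := -1) (by norm_num)
    simp only [Real.rpow_neg_one] at this
    rw [this]
    convert hc1 using 1
    push_cast
    ring
  unfold WeakFEPair.Λ₀
  have h5 : mellin (FEP hTHE A B Δ hA hD hQ).f_modif (1 / 2) =
      mellin (fun t => f1 t + (t : ℂ) ^ (-1 : ℂ) • f1 t⁻¹) (1 / 2) := by
    unfold mellin
    exact setIntegral_congr_fun measurableSet_Ioi fun t ht => by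
      simp only [hmod t ht]
  rw [h5, (hasMellin_add hc1 hc2).2, mellin_cpow_smul, mellin_comp_inv]
  rw [show -((1 / 2 : ℂ) + -1) = 1 / 2 by ring, hm1]
  ring

theorem pf_EPS (hTHE : T_THE) (hZTH : T_ZTH) : T_EPS := by
  intro A B Δ hA hD
  have hs : 0 < Real.sqrt Δ := Real.sqrt_pos.2 hD
  have hqd : ∀ v, 0 ≤ qd A B Δ v := by
    obtain ⟨c, hc, h⟩ := qd_lower A B Δ hA hD
    intro v
    exact le_trans (by positivity) (h v)
  have hqd' : ∀ v, v ≠ 0 → 0 < qd A B Δ v := by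
    obtain ⟨c, hc, h⟩ := qd_lower A B Δ hA hD
    intro v hv
    have := norm_ge_one hv
    exact lt_of_lt_of_le (by positivity) (h v)
  have hQ : ∀ v, 0 ≤ eq' A B Δ v := by
    intro v
    unfold eq'
    have := hqd v
    positivity
  have hQ' : ∀ v, v ≠ 0 → 0 < eq' A B Δ v := by
    intro v hv
    unfold eq'
    have := hqd' v hv
    positivity
  obtain ⟨-, hI, hz⟩ := hZTH A B Δ hA hD
  set P := FEP hTHE A B Δ hA hD hQ with hP
  set b : ℝ := 2 * π / Real.sqrt Δ with hb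
  have hb0 : 0 < b := by positivity
  refine ⟨fun s => 1 / 2 * (b : ℂ) ^ s * (P.Λ₀ s * (Complex.Gamma s)⁻¹ -
    (Complex.Gamma (s + 1))⁻¹ - (Complex.Gamma s)⁻¹ / (1 - s)), ?_, ?_, ?_⟩
  · intro s hs1
    have hs1' : (1 : ℂ) - s ≠ 0 := by
      intro h
      exact hs1 (by simpa using (sub_eq_zero.1 h).symm)
    have hbc : (b : ℂ) ≠ 0 := Complex.ofReal_ne_zero.2 hb0.ne'
    have h1 : DifferentiableAt ℂ (fun s : ℂ => (b : ℂ) ^ s) s :=
      differentiableAt_id.const_cpow (Or.inl hbc)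
    have h2 : DifferentiableAt ℂ (fun s : ℂ => (Complex.Gamma s)⁻¹) s :=
      Complex.differentiable_one_div_Gamma s
    have h3 : DifferentiableAt ℂ (fun s : ℂ => (Complex.Gamma (s + 1))⁻¹) s := by
      have := (Complex.differentiable_one_div_Gamma (s + 1)).comp s
        ((differentiableAt_id (𝕜 := ℂ) (x := s)).add_const 1)
      exact this
    have h4 : DifferentiableAt ℂ (fun s : ℂ => (Complex.Gamma s)⁻¹ / (1 - s)) s :=
      h2.div ((differentiableAt_const 1).sub differentiableAt_id) hs1'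
    exact ((h1.const_mul (1 / 2)).mul ((((P.differentiable_Λ₀ s).mul h2).sub h3).sub
      h4)).differentiableWithinAt
  · intro s hs1
    have hk : P.k < s.re := hs1
    have hM := P.hasMellin hk
    have hG : Complex.Gamma s ≠ 0 := Complex.Gamma_ne_zero_of_re_pos (by linarith)
    have hs0 : s ≠ 0 := by
      intro h
      rw [h] at hs1
      simp at hs1
      linarith
    have hs1' : (1 : ℂ) - s ≠ 0 := by
      intro h
      have := sub_eq_zero.1 h
      rw [← this] at hs1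
      simp at hs1
    have hsum := hasSum_mellin (a := fun v : ℤ × ℤ => if v = 0 then (0 : ℂ) else 1)
      (p := eq' A B Δ) (F := fun t => P.f t - P.f₀) (s := s)
      (fun v => by
        by_cases hv : v = 0
        · left; simp [hv]
        · right; exact hQ' v hv) (by linarith)
      (fun t ht => by
        have h := (Complex.hasSum_ofReal.2 (Th_sub hTHE (B := B) hA hD ht))
        have e : P.f t - P.f₀ = ((Th A B Δ t - 1 : ℝ) : ℂ) := by
          rw [hP]
          change ((Th A B Δ t : ℝ) : ℂ) - 1 = _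
          push_cast
          ring
        rw [e]
        refine h.congr_fun ?_ |> fun x => x
        intro v
        by_cases hv : v = 0
        · simp [hv]
        · rw [if_neg hv, if_neg hv, one_mul])
      (by
        refine (summable_pow hA hD hs1 (B := B)).congr fun v => ?_
        by_cases hv : v = 0
        · simp [hv]
        · simp [hv])
    have hmel : mellin (fun t => P.f t - P.f₀) s = P.Λ s := hM.2
    rw [hmel] at hsum
    have h2 := hsum.mul_left ((b : ℂ) ^ s * (Complex.Gamma s)⁻¹)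
    have e2 : (b : ℂ) ^ s * (Complex.Gamma s)⁻¹ * P.Λ s = 2 * (1 / 2 * (b : ℂ) ^ s *
        (P.Λ₀ s * (Complex.Gamma s)⁻¹ - (Complex.Gamma (s + 1))⁻¹ -
          (Complex.Gamma s)⁻¹ / (1 - s))) := by
      have e3 : P.Λ s = P.Λ₀ s - (1 / s) • (1 : ℂ) - ((1 : ℂ) / (((1 : ℝ) : ℂ) - s)) • (1 : ℂ) :=
        rfl
      rw [e3, Complex.Gamma_add_one s hs0, smul_eq_mul, smul_eq_mul, Complex.ofReal_one]
      field_simp
    rw [e2] at h2
    refine h2.congr_fun ?_ |> fun x => x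
    intro v
    by_cases hv : v = 0
    · simp [hv]
    · rw [if_neg hv, if_neg hv, mul_one]
      have e4 : ((eq' A B Δ v : ℝ) : ℂ) ^ s = (b : ℂ) ^ s * ((qd A B Δ v : ℝ) : ℂ) ^ s := by
        unfold eq'
        rw [← hb, Complex.ofReal_mul, Complex.mul_cpow_ofReal_nonneg hb0.le (hqd v)]
      have hbs : (b : ℂ) ^ s ≠ 0 := by
        rw [Complex.cpow_def_of_ne_zero (Complex.ofReal_ne_zero.2 hb0.ne')]
        exact Complex.exp_ne_zero _
      have hqs : ((qd A B Δ v : ℝ) : ℂ) ^ s ≠ 0 := by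
        rw [Complex.cpow_def_of_ne_zero (Complex.ofReal_ne_zero.2 (hqd' v hv).ne')]
        exact Complex.exp_ne_zero _
      rw [e4, Complex.cpow_neg]
      field_simp
  · have h1 := L0_half hTHE A B Δ hA hD hQ hI
    simp only
    rw [← hP] at h1
    rw [h1, show (1 / 2 : ℂ) + 1 = 1 / 2 + 1 from rfl, Complex.Gamma_add_one _ (by norm_num),
      Complex.Gamma_one_half_eq, hz]
    have hb2 : (b : ℂ) ^ (1 / 2 : ℂ) = ((Real.sqrt 2 * Real.sqrt π * Δ ^ (-(1 / 4) : ℝ) : ℝ) : ℂ) := by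
      have : ((1 / 2 : ℂ)) = (((1 / 2 : ℝ)) : ℂ) := by push_cast; ring
      rw [this, ← Complex.ofReal_cpow hb0.le]
      congr 1
      rw [hb, Real.div_rpow (by positivity) hs.le, ← Real.sqrt_eq_rpow, Real.sqrt_mul (by norm_num),
        Real.sqrt_eq_rpow Δ, ← Real.rpow_mul hD.le, Real.rpow_neg hD.le, div_eq_mul_inv]
      norm_num
    have hpi : (π : ℂ) ^ (1 / 2 : ℂ) = ((Real.sqrt π : ℝ) : ℂ) := by
      have : ((1 / 2 : ℂ)) = (((1 / 2 : ℝ)) : ℂ) := by push_cast; ring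
      rw [this, ← Complex.ofReal_cpow Real.pi_pos.le, ← Real.sqrt_eq_rpow]
    rw [hb2, hpi]
    have hsp : ((Real.sqrt π : ℝ) : ℂ) ≠ 0 :=
      Complex.ofReal_ne_zero.2 (Real.sqrt_pos.2 Real.pi_pos).ne'
    push_cast
    field_simp
    ring

end Pool.Agent.H26.CN.EPS
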