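import Pool.Agent.H26.CN.SSA3
import Pool.Agent.H31.CN.T3
import Pool.Agent.H31.CN.T1

/-!
# Asymptotic expansion of the basic sums
-/

set_option autoImplicit false

open MeasureTheory Set Filter
open scoped Real Topology

namespace Pool.Agent.H26.CN.SSA

open Pool.Agent.H31.CN

/-- the size of a pair -/
noncomputable def Nx (p : ℕ × ℕ) : ℝ := (p.1 : ℝ) ^ 2 * p.2

theorem Nx_nonneg (p : ℕ × ℕ) : 0 ≤ Nx p := by
  unfold Nx
  positivity

theorem Nx_ge {p : ℕ × ℕ} (h1 : 1 ≤ p.1) (h2 : 1 ≤ p.2) :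
    ((p.1 : ℝ) + p.2) / 2 ≤ Nx p ∧ 1 ≤ Nx p := by
  have h1' : (1 : ℝ) ≤ p.1 := by exact_mod_cast h1
  have h2' : (1 : ℝ) ≤ p.2 := by exact_mod_cast h2
  unfold Nx
  have h3 : (p.1 : ℝ) ≤ (p.1 : ℝ) ^ 2 := by nlinarith
  have h4 : (p.1 : ℝ) * p.2 ≤ (p.1 : ℝ) ^ 2 * p.2 := by gcongr
  constructor
  · nlinarith
  · nlinarith

/-- the large weight -/
noncomputable def wb (p : ℕ × ℕ) : ℝ := (1 + Real.log p.2) / ((p.1 : ℝ) * p.2)

theorem wb_zero {p : ℕ × ℕ} (h : ¬(1 ≤ p.1 ∧ 1 ≤ p.2)) : wb p = 0 := by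
  unfold wb
  have : (p.1 : ℝ) * p.2 = 0 := by
    by_cases h1 : p.1 = 0
    · rw [h1]; simp
    · have h2 : p.2 = 0 := by
        by_contra h2
        exact h ⟨Nat.one_le_iff_ne_zero.2 h1, Nat.one_le_iff_ne_zero.2 h2⟩
      rw [h2]; simp
  rw [this, div_zero]

theorem wi_zero (i : ℕ) {p : ℕ × ℕ} (h : ¬(1 ≤ p.1 ∧ 1 ≤ p.2)) : wi i p = 0 := by
  unfold wi
  have : (p.1 : ℝ) * p.2 = 0 := by
    by_cases h1 : p.1 = 0
    · rw [h1]; simp
    · have h2 : p.2 = 0 := by
        by_contra h2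
        exact h ⟨Nat.one_le_iff_ne_zero.2 h1, Nat.one_le_iff_ne_zero.2 h2⟩
      rw [h2]; simp
  rw [this, div_zero]

theorem wb_bd (p : ℕ × ℕ) : 0 ≤ wb p ∧ wb p ≤ 1 := by
  by_cases h : 1 ≤ p.1 ∧ 1 ≤ p.2
  · have h1 : (1 : ℝ) ≤ p.1 := by exact_mod_cast h.1
    have h2 : (1 : ℝ) ≤ p.2 := by exact_mod_cast h.2
    have hl := Real.log_nonneg h2
    unfold wb
    refine ⟨by positivity, ?_⟩
    rw [div_le_one (by positivity)]
    have h3 := Real.log_le_sub_one_of_pos (by linarith : (0 : ℝ) < p.2)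
    nlinarith
  · rw [wb_zero h]
    exact ⟨le_rfl, zero_le_one⟩

theorem wi_bd {i : ℕ} (hi : i ≤ 1) (p : ℕ × ℕ) : 0 ≤ wi i p ∧ wi i p ≤ wb p := by
  by_cases h : 1 ≤ p.1 ∧ 1 ≤ p.2
  · have h1 : (1 : ℝ) ≤ p.1 := by exact_mod_cast h.1
    have h2 : (1 : ℝ) ≤ p.2 := by exact_mod_cast h.2
    have hl := Real.log_nonneg h2
    unfold wb wi
    refine ⟨by positivity, ?_⟩
    gcongr
    interval_cases i
    · rw [pow_zero]; linarith
    · rw [pow_one]; linarith
  · rw [wb_zero h, wi_zero i h]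
    exact ⟨le_rfl, le_rfl⟩

theorem summ_wb {c : ℝ} (hc : 0 < c) : Summable (fun p : ℕ × ℕ => wb p * Real.exp (-(c * Nx p))) := by
  have h1 : Summable (fun n : ℕ => Real.exp (n * (-(c / 2)))) :=
    Real.summable_exp_nat_mul_iff.2 (by linarith)
  have h2 := h1.mul_of_nonneg h1 (fun n => (Real.exp_pos _).le) (fun n => (Real.exp_pos _).le)
  refine Summable.of_nonneg_of_le (fun p => mul_nonneg (wb_bd p).1 (Real.exp_pos _).le)
    (fun p => ?_) h2
  by_cases h : 1 ≤ p.1 ∧ 1 ≤ p.2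
  · have h3 := (Nx_ge h.1 h.2).1
    rw [← Real.exp_add]
    calc wb p * Real.exp (-(c * Nx p)) ≤ 1 * Real.exp (-(c * Nx p)) := by
          gcongr
          exact (wb_bd p).2
      _ ≤ _ := by
        rw [one_mul, Real.exp_le_exp]
        nlinarith
  · rw [wb_zero h, zero_mul]
    positivity

section

variable {C : ℝ} (hC : 0 < C) (hb : ∀ x : ℝ, 0 < x → |Vk x| ≤ C * Real.exp (-(6 * x)))
  (hb1 : ∀ x : ℝ, 0 < x → |Vk x - 1| ≤ C * x)
  (hd : ∀ x : ℝ, 0 < x → DifferentiableAt ℝ Vk x ∧ |deriv Vk x| ≤ C * Real.exp (-(6 * x)))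
  (hcd : ContinuousOn (deriv Vk) (Ioi 0))

include hC hb

theorem part_one (Y : ℝ) : Summable (fun x : ℕ × ℕ =>
    |Vk ((x.1 : ℝ) ^ 2 * x.2 * Real.exp (-Y)) * (1 + Real.log x.2) / ((x.1 : ℝ) * x.2)|) := by
  have h := (summ_wb (c := 6 * Real.exp (-Y)) (by positivity)).mul_left C
  refine Summable.of_nonneg_of_le (fun p => abs_nonneg _) (fun p => ?_) h
  have e : Vk ((p.1 : ℝ) ^ 2 * p.2 * Real.exp (-Y)) * (1 + Real.log p.2) / ((p.1 : ℝ) * p.2) =
      Vk (Nx p * Real.exp (-Y)) * wb p := by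
    unfold Nx wb
    ring
  rw [e, abs_mul, abs_of_nonneg (wb_bd p).1]
  by_cases h : 1 ≤ p.1 ∧ 1 ≤ p.2
  · have h3 := (Nx_ge h.1 h.2).2
    have h4 := hb (Nx p * Real.exp (-Y)) (by positivity)
    calc |Vk (Nx p * Real.exp (-Y))| * wb p ≤ (C * Real.exp (-(6 * (Nx p * Real.exp (-Y))))) * wb p :=
          mul_le_mul_of_nonneg_right h4 (wb_bd p).1
      _ = C * (wb p * Real.exp (-(6 * Real.exp (-Y) * Nx p))) := by ring_nf
  · rw [wb_zero h]
    simp

theorem Vk_tend : Tendsto Vk atTop (𝓝 0) := by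
  have h1 : Tendsto (fun x : ℝ => C * Real.exp (-(6 * x))) atTop (𝓝 0) := by
    have h2 : Tendsto (fun x : ℝ => Real.exp (-(6 * x))) atTop (𝓝 0) := by
      refine Real.tendsto_exp_neg_atTop_nhds_zero.comp ?_
      exact tendsto_id.const_mul_atTop (by norm_num)
    simpa using h2.const_mul C
  refine squeeze_zero_norm' ?_ h1
  filter_upwards [eventually_gt_atTop 0] with x hx
  exact hb x hx

omit hb in
include hd hcd in
theorem dV_int {k : ℕ} (hk : k ≤ 3) :
    IntegrableOn (fun u => Real.log u ^ k * deriv Vk u) (Ioi 0) := by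
  obtain ⟨K, hK, hlog⟩ := log_pow_le 3 (1 / 4) (by norm_num)
  have hi1 : IntegrableOn (fun u : ℝ => u ^ (-(1 / 4) : ℝ) * Real.exp (-6 * u ^ (1 : ℝ))) (Ioi 0) :=
    integrableOn_rpow_mul_exp_neg_mul_rpow (by norm_num) zero_lt_one (by norm_num)
  have hi2 : IntegrableOn (fun u : ℝ => u ^ (1 / 4 : ℝ) * Real.exp (-6 * u ^ (1 : ℝ))) (Ioi 0) :=
    integrableOn_rpow_mul_exp_neg_mul_rpow (by norm_num) zero_lt_one (by norm_num)
  have hi := ((hi1.add hi2).const_mul (K * C))
  refine Integrable.mono' hi ?_ ?_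
  · refine ContinuousOn.aestronglyMeasurable ?_ measurableSet_Ioi
    refine ContinuousOn.mul (ContinuousOn.pow ?_ k) hcd
    exact Real.continuousOn_log.mono fun x hx => ne_of_gt hx
  · refine (ae_restrict_iff' measurableSet_Ioi).2 (Eventually.of_forall fun u hu => ?_)
    have hu0 : (0 : ℝ) < u := hu
    have h1 := (hd u hu0).2
    have h2 : |Real.log u ^ k| ≤ K * (u ^ (-(1 / 4) : ℝ) + u ^ (1 / 4 : ℝ)) := by
      have h3 : |Real.log u ^ k| ≤ (1 + |Real.log u|) ^ 3 := by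
        rw [abs_pow]
        calc |Real.log u| ^ k ≤ (1 + |Real.log u|) ^ k := by
              gcongr
              linarith
          _ ≤ _ := pow_le_pow_right₀ (by linarith [abs_nonneg (Real.log u)]) hk
      refine h3.trans ?_
      have p1 : 0 < u ^ (-(1 / 4) : ℝ) := Real.rpow_pos_of_pos hu0 _
      have p2 : 0 < u ^ (1 / 4 : ℝ) := Real.rpow_pos_of_pos hu0 _
      by_cases hu1 : u ≤ 1
      · have h4 := hlog u⁻¹ (one_le_inv_iff₀.2 ⟨hu0, hu1⟩)
        rw [Real.log_inv, Real.inv_rpow hu0.le, ← Real.rpow_neg hu0.le] at h4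
        rw [abs_of_nonpos (Real.log_nonpos hu0.le hu1)]
        nlinarith
      · rw [not_le] at hu1
        have h4 := hlog u hu1.le
        rw [abs_of_nonneg (Real.log_nonneg hu1.le)]
        nlinarith
    rw [Real.norm_eq_abs, abs_mul]
    calc |Real.log u ^ k| * |deriv Vk u| ≤ (K * (u ^ (-(1 / 4) : ℝ) + u ^ (1 / 4 : ℝ))) *
          (C * Real.exp (-(6 * u))) := by
          refine mul_le_mul h2 h1 (abs_nonneg _) ?_
          have p1 : 0 < u ^ (-(1 / 4) : ℝ) := Real.rpow_pos_of_pos hu0 _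
          have p2 : 0 < u ^ (1 / 4 : ℝ) := Real.rpow_pos_of_pos hu0 _
          positivity
      _ = _ := by
        simp only [Pi.add_apply, Real.rpow_one, neg_mul]
        ring

include hd hcd in
theorem tail_int {a : ℝ} (ha : 0 < a) : ∫ u in Ici a, deriv Vk u = -Vk a := by
  rw [integral_Ici_eq_integral_Ioi]
  have h0 := dV_int hC hd hcd (k := 0) (by norm_num)
  simp only [pow_zero, one_mul] at h0
  have h := integral_Ioi_of_hasDerivAt_of_tendsto' (f := Vk) (f' := deriv Vk) (a := a)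
    (m := 0) (fun x hx => (hd x (lt_of_lt_of_le ha hx)).1.hasDerivAt)
    (h0.mono_set (Ioi_subset_Ioi ha.le)) (Vk_tend hC hb)
  rw [h, zero_sub]

include hd hcd hb1 in
theorem total_int : ∫ u in Ioi 0, deriv Vk u = -1 := by
  have h0 := dV_int hC hd hcd (k := 0) (by norm_num)
  simp only [pow_zero, one_mul] at h0
  have hcont : ContinuousWithinAt (fun x => if x = 0 then 1 else Vk x) (Ici (0 : ℝ)) 0 := by
    rw [Metric.continuousWithinAt_iff]
    intro ε hε
    refine ⟨ε / C, by positivity, fun x hx hxd => ?_⟩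
    simp only [if_true]
    by_cases hx0 : x = 0
    · rw [if_pos hx0, dist_self]
      exact hε
    · rw [if_neg hx0]
      have hx' : 0 < x := lt_of_le_of_ne hx (Ne.symm hx0)
      rw [Real.dist_eq, sub_zero, abs_of_pos hx'] at hxd
      rw [Real.dist_eq]
      refine (hb1 x hx').trans_lt ?_
      rw [lt_div_iff₀ hC] at hxd
      linarith
  have h := integral_Ioi_of_hasDerivAt_of_tendsto (f := fun x => if x = 0 then 1 else Vk x)
    (f' := deriv Vk) (a := 0) (m := 0) hcont (fun x hx => by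
      have hx' : (0 : ℝ) < x := hx
      refine ((hd x hx').1.hasDerivAt).congr_of_eventuallyEq ?_
      filter_upwards [Ioi_mem_nhds hx'] with y hy
      rw [if_neg (ne_of_gt hy)]) h0 (by
      refine (Vk_tend hC hb).congr' ?_
      filter_upwards [eventually_gt_atTop 0] with x hx
      rw [if_neg (ne_of_gt hx)])
  rw [h]
  simp

include hd hcd in
/-- the sum as an integral of the summatory function -/
theorem fub {i : ℕ} (hi : i ≤ 1) {Z : ℝ} (hZ : 0 < Z) :
    ∑' p : ℕ × ℕ, wi i p * Vk (Nx p / Z) = -∫ u in Ioi 0, Di i (u * Z) * deriv Vk u := by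
  set F : ℕ × ℕ → ℝ → ℝ := fun p => (Ici (Nx p / Z)).indicator (fun u => wi i p * deriv Vk u)
    with hF
  have h0 := dV_int hC hd hcd (k := 0) (by norm_num)
  simp only [pow_zero, one_mul] at h0
  have hint : ∀ p, IntegrableOn (F p) (Ioi 0) := fun p =>
    (h0.const_mul (wi i p)).indicator measurableSet_Ici
  have hval : ∀ p, ∫ u in Ioi 0, F p u = -(wi i p * Vk (Nx p / Z)) := by
    intro p
    by_cases h : 1 ≤ p.1 ∧ 1 ≤ p.2
    · have h3 := (Nx_ge h.1 h.2).2
      have ha : 0 < Nx p / Z := by positivity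
      simp only [hF]
      rw [setIntegral_indicator measurableSet_Ici,
        inter_eq_self_of_subset_right (Ici_subset_Ioi.2 ha), integral_const_mul,
        tail_int hC hb hd hcd ha]
      ring
    · simp only [hF]
      rw [wi_zero i h]
      simp
  have hnorm : ∀ p, ∫ u in Ioi 0, ‖F p u‖ ≤ C * (wb p * Real.exp (-(6 / Z * Nx p))) := by
    intro p
    by_cases h : 1 ≤ p.1 ∧ 1 ≤ p.2
    · have h3 := (Nx_ge h.1 h.2).2
      have ha : 0 < Nx p / Z := by positivity
      have e1 : ∀ u, ‖F p u‖ = (Ici (Nx p / Z)).indicator (fun u => wi i p * |deriv Vk u|) u := by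
        intro u
        simp only [hF]
        by_cases hu : u ∈ Ici (Nx p / Z)
        · rw [indicator_of_mem hu, indicator_of_mem hu, Real.norm_eq_abs, abs_mul,
            abs_of_nonneg (wi_bd hi p).1]
        · rw [indicator_of_notMem hu, indicator_of_notMem hu, norm_zero]
      simp only [e1]
      rw [setIntegral_indicator measurableSet_Ici,
        inter_eq_self_of_subset_right (Ici_subset_Ioi.2 ha), integral_const_mul]
      have h5 : ∫ u in Ici (Nx p / Z), |deriv Vk u| ≤ C * Real.exp (-(6 / Z * Nx p)) := by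
        rw [integral_Ici_eq_integral_Ioi]
        have hexp : IntegrableOn (fun x : ℝ => Real.exp (-6 * x)) (Ioi (Nx p / Z)) :=
          integrableOn_exp_mul_Ioi (by norm_num) _
        calc ∫ u in Ioi (Nx p / Z), |deriv Vk u| ≤ ∫ u in Ioi (Nx p / Z), C * Real.exp (-6 * u) := by
              refine setIntegral_mono_on ((h0.mono_set (Ioi_subset_Ioi ha.le)).abs)
                (hexp.const_mul C) measurableSet_Ioi fun u hu => ?_
              have := (hd u (ha.trans hu)).2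
              rwa [neg_mul]
          _ = C * (Real.exp (-6 * (Nx p / Z)) / 6) := by
            rw [integral_const_mul, integral_exp_mul_Ioi (by norm_num)]
            ring
          _ ≤ C * Real.exp (-(6 / Z * Nx p)) := by
            have : Real.exp (-6 * (Nx p / Z)) = Real.exp (-(6 / Z * Nx p)) := by
              congr 1
              ring
            rw [this]
            have := Real.exp_pos (-(6 / Z * Nx p))
            gcongr
            linarith
      calc wi i p * ∫ u in Ici (Nx p / Z), |deriv Vk u| ≤ wb p * (C * Real.exp (-(6 / Z * Nx p))) :=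
            mul_le_mul (wi_bd hi p).2 h5 (setIntegral_nonneg measurableSet_Ici
              fun u _ => abs_nonneg _) (wb_bd p).1
        _ = _ := by ring
    · have e1 : ∀ u, ‖F p u‖ = 0 := by
        intro u
        simp only [hF]
        rw [wi_zero i h]
        simp
      simp only [e1]
      rw [wb_zero h]
      simp
  have hsum : Summable fun p => ∫ u in Ioi 0, ‖F p u‖ :=
    Summable.of_nonneg_of_le (fun p => integral_nonneg fun u => norm_nonneg _) hnorm
      ((summ_wb (c := 6 / Z) (by positivity)).mul_left C)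
  have h := hasSum_integral_of_summable_integral_norm hint hsum
  have h1 := h.tsum_eq
  simp only [hval] at h1
  rw [tsum_neg] at h1
  rw [← neg_eq_iff_eq_neg, h1]
  refine setIntegral_congr_fun measurableSet_Ioi fun u hu => ?_
  have hu0 : (0 : ℝ) < u := hu
  rw [tsum_eq_sum (s := Sx (u * Z))]
  · unfold Di
    rw [Finset.sum_mul]
    refine Finset.sum_congr rfl fun p hp => ?_
    simp only [hF]
    rw [indicator_of_mem]
    rw [mem_Ici, div_le_iff₀ hZ]
    exact (mem_Sx.1 hp).2.2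
  · intro p hp
    simp only [hF]
    by_cases h : 1 ≤ p.1 ∧ 1 ≤ p.2
    · rw [indicator_of_notMem]
      intro h2
      rw [mem_Ici, div_le_iff₀ hZ] at h2
      exact hp (mem_Sx.2 ⟨h.1, h.2, h2⟩)
    · rw [wi_zero i h]
      simp

include hd hcd in
/-- the error of the integral -/
theorem err_int {i : ℕ} (hi : i ≤ 1) (c0 c1 c2 c3 K : ℝ) (hK : 0 < K)
    (hP : ∀ x : ℝ, 0 < x → |Di i x - (c0 + c1 * Real.log x + c2 * Real.log x ^ 2 +
      c3 * Real.log x ^ 3)| ≤ K * x ^ (-(1 / 4) : ℝ)) (Y : ℝ) :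
    |(∑' p : ℕ × ℕ, wi i p * Vk (Nx p / Real.exp Y)) - -∫ u in Ioi 0, (c0 +
      c1 * (Y + Real.log u) + c2 * (Y + Real.log u) ^ 2 + c3 * (Y + Real.log u) ^ 3) *
      deriv Vk u| ≤ K * C * (∫ u in Ioi 0, u ^ (-(1 / 4) : ℝ) * Real.exp (-6 * u ^ (1 : ℝ))) *
      Real.exp (-(Y / 4)) := by
  have hZ : 0 < Real.exp Y := Real.exp_pos Y
  rw [fub hC hb hd hcd hi hZ]
  have g0 := dV_int hC hd hcd (k := 0) (by norm_num)
  have g1 := dV_int hC hd hcd (k := 1) (by norm_num)
  have g2 := dV_int hC hd hcd (k := 2) (by norm_num)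
  have g3 := dV_int hC hd hcd (k := 3) (by norm_num)
  have hi1 : IntegrableOn (fun u : ℝ => u ^ (-(1 / 4) : ℝ) * Real.exp (-6 * u ^ (1 : ℝ))) (Ioi 0) :=
    integrableOn_rpow_mul_exp_neg_mul_rpow (by norm_num) zero_lt_one (by norm_num)
  have hmain : IntegrableOn (fun u => (c0 + c1 * (Y + Real.log u) + c2 * (Y + Real.log u) ^ 2 +
      c3 * (Y + Real.log u) ^ 3) * deriv Vk u) (Ioi 0) := by
    have h := (((g0.const_mul (c0 + c1 * Y + c2 * Y ^ 2 + c3 * Y ^ 3)).add
      (g1.const_mul (c1 + 2 * c2 * Y + 3 * c3 * Y ^ 2))).add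
      (g2.const_mul (c2 + 3 * c3 * Y))).add (g3.const_mul c3)
    refine h.congr (Eventually.of_forall fun u => ?_)
    simp only [Pi.add_apply]
    ring
  -- the integrability of the summatory function
  have hDm : AEStronglyMeasurable (fun u => Di i (u * Real.exp Y) * deriv Vk u)
      (volume.restrict (Ioi 0)) := by
    refine AEStronglyMeasurable.mul ?_ (hcd.aestronglyMeasurable measurableSet_Ioi)
    have hmono : MonotoneOn (fun u => Di i (u * Real.exp Y)) univ := by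
      intro a _ b _ hab
      simp only
      unfold Di
      refine Finset.sum_le_sum_of_subset_of_nonneg ?_ fun p _ _ => (wi_bd hi p).1
      intro p hp
      obtain ⟨q1, q2, q3⟩ := mem_Sx.1 hp
      refine mem_Sx.2 ⟨q1, q2, q3.trans ?_⟩
      gcongr
    exact (monotoneOn_univ.1 hmono).measurable.aestronglyMeasurable
  have hbound : ∀ u : ℝ, 0 < u → |(Di i (u * Real.exp Y) - (c0 + c1 * (Y + Real.log u) +
      c2 * (Y + Real.log u) ^ 2 + c3 * (Y + Real.log u) ^ 3)) * deriv Vk u| ≤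
      K * C * Real.exp (-(Y / 4)) * (u ^ (-(1 / 4) : ℝ) * Real.exp (-6 * u ^ (1 : ℝ))) := by
    intro u hu
    have h1 := hP (u * Real.exp Y) (by positivity)
    rw [Real.log_mul hu.ne' hZ.ne', Real.log_exp, add_comm (Real.log u) Y] at h1
    have h2 : (u * Real.exp Y) ^ (-(1 / 4) : ℝ) = u ^ (-(1 / 4) : ℝ) * Real.exp (-(Y / 4)) := by
      rw [Real.mul_rpow hu.le hZ.le, ← Real.exp_mul]
      congr 2
      ring
    rw [h2] at h1
    rw [abs_mul, Real.rpow_one]
    calc _ ≤ (K * (u ^ (-(1 / 4) : ℝ) * Real.exp (-(Y / 4)))) * (C * Real.exp (-(6 * u))) :=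
          mul_le_mul h1 (hd u hu).2 (abs_nonneg _) (by positivity)
      _ = _ := by
        rw [neg_mul]
        ring
  have hdiff : IntegrableOn (fun u => (Di i (u * Real.exp Y) - (c0 + c1 * (Y + Real.log u) +
      c2 * (Y + Real.log u) ^ 2 + c3 * (Y + Real.log u) ^ 3)) * deriv Vk u) (Ioi 0) := by
    refine Integrable.mono' (hi1.const_mul (K * C * Real.exp (-(Y / 4)))) ?_ ?_
    · have := hDm.sub hmain.aestronglyMeasurable
      refine this.congr (Eventually.of_forall fun u => ?_)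
      simp only [Pi.sub_apply]
      ring
    · refine (ae_restrict_iff' measurableSet_Ioi).2 (Eventually.of_forall fun u hu => ?_)
      exact hbound u hu
  have hD : IntegrableOn (fun u => Di i (u * Real.exp Y) * deriv Vk u) (Ioi 0) := by
    refine (hdiff.add hmain).congr (Eventually.of_forall fun u => ?_)
    simp only [Pi.add_apply]
    ring
  have e : (-∫ u in Ioi 0, Di i (u * Real.exp Y) * deriv Vk u) - -∫ u in Ioi 0, (c0 +
      c1 * (Y + Real.log u) + c2 * (Y + Real.log u) ^ 2 + c3 * (Y + Real.log u) ^ 3) *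
      deriv Vk u = -∫ u in Ioi 0, (Di i (u * Real.exp Y) - (c0 + c1 * (Y + Real.log u) +
      c2 * (Y + Real.log u) ^ 2 + c3 * (Y + Real.log u) ^ 3)) * deriv Vk u := by
    have := integral_sub hD hmain
    rw [← neg_sub_neg, neg_neg, neg_neg, ← neg_sub, ← this]
    congr 1
    refine setIntegral_congr_fun measurableSet_Ioi fun u _ => ?_
    ring
  rw [e, abs_neg]
  have h1 := norm_integral_le_of_norm_le (μ := volume.restrict (Ioi (0 : ℝ)))
    (f := fun u => (Di i (u * Real.exp Y) - (c0 + c1 * (Y + Real.log u) +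
      c2 * (Y + Real.log u) ^ 2 + c3 * (Y + Real.log u) ^ 3)) * deriv Vk u)
    (hi1.const_mul (K * C * Real.exp (-(Y / 4))))
    ((ae_restrict_iff' measurableSet_Ioi).2 (Eventually.of_forall fun u hu => hbound u hu))
  rw [Real.norm_eq_abs] at h1
  refine h1.trans (le_of_eq ?_)
  rw [integral_const_mul]
  ring

end

theorem int_lin {μ : Measure ℝ} {f0 f1 f2 f3 : ℝ → ℝ} (h0 : Integrable f0 μ)
    (h1 : Integrable f1 μ) (h2 : Integrable f2 μ) (h3 : Integrable f3 μ) (c0 c1 c2 c3 : ℝ) :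
    ∫ u, (c0 * f0 u + c1 * f1 u + c2 * f2 u + c3 * f3 u) ∂μ =
      c0 * (∫ u, f0 u ∂μ) + c1 * (∫ u, f1 u ∂μ) + c2 * (∫ u, f2 u ∂μ) + c3 * (∫ u, f3 u ∂μ) := by
  have i0 : Integrable (fun u => c0 * f0 u) μ := h0.const_mul c0
  have i1 : Integrable (fun u => c1 * f1 u) μ := h1.const_mul c1
  have i2 : Integrable (fun u => c2 * f2 u) μ := h2.const_mul c2
  have i3 : Integrable (fun u => c3 * f3 u) μ := h3.const_mul c3
  have i01 : Integrable (fun u => c0 * f0 u + c1 * f1 u) μ := i0.add i1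
  have i012 : Integrable (fun u => c0 * f0 u + c1 * f1 u + c2 * f2 u) μ := i01.add i2
  rw [integral_add i012 i3, integral_add i01 i2, integral_add i0 i1, integral_const_mul,
    integral_const_mul, integral_const_mul, integral_const_mul]

theorem pf_SSA (hVK : T_VK) : T_SSA := by
  obtain ⟨C, hC, hb, hb1, hd, hcd⟩ := hVK
  refine ⟨part_one hC hb, ?_⟩
  obtain ⟨a, b, K0, hK0, h0⟩ := D_zero
  obtain ⟨a', b', c', K1, hK1, h1⟩ := D_one
  have g0 := dV_int hC hd hcd (k := 0) (by norm_num)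
  have g1 := dV_int hC hd hcd (k := 1) (by norm_num)
  have g2 := dV_int hC hd hcd (k := 2) (by norm_num)
  have g3 := dV_int hC hd hcd (k := 3) (by norm_num)
  have m0 : ∫ u in Ioi 0, Real.log u ^ 0 * deriv Vk u = -1 := by
    simp only [pow_zero, one_mul]
    exact total_int hC hb hb1 hd hcd
  have hlin : ∀ c0 c1 c2 c3 : ℝ, ∫ u in Ioi 0, (c0 * (Real.log u ^ 0 * deriv Vk u) +
      c1 * (Real.log u ^ 1 * deriv Vk u) + c2 * (Real.log u ^ 2 * deriv Vk u) +
      c3 * (Real.log u ^ 3 * deriv Vk u)) =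
      c0 * (∫ u in Ioi 0, Real.log u ^ 0 * deriv Vk u) +
      c1 * (∫ u in Ioi 0, Real.log u ^ 1 * deriv Vk u) +
      c2 * (∫ u in Ioi 0, Real.log u ^ 2 * deriv Vk u) +
      c3 * (∫ u in Ioi 0, Real.log u ^ 3 * deriv Vk u) := by
    intro c0 c1 c2 c3
    exact int_lin g0 g1 g2 g3 c0 c1 c2 c3
  set m1 := ∫ u in Ioi 0, Real.log u ^ 1 * deriv Vk u with hm1
  set m2 := ∫ u in Ioi 0, Real.log u ^ 2 * deriv Vk u with hm2
  set m3 := ∫ u in Ioi 0, Real.log u ^ 3 * deriv Vk u with hm3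
  set W := ∫ u in Ioi (0 : ℝ), u ^ (-(1 / 4) : ℝ) * Real.exp (-6 * u ^ (1 : ℝ)) with hW
  have hW0 : 0 ≤ W := setIntegral_nonneg measurableSet_Ioi fun u hu => by
    have : (0 : ℝ) < u := hu
    positivity
  have hexpr : ∀ (c0 c1 c2 c3 Y : ℝ), -∫ u in Ioi 0, (c0 + c1 * (Y + Real.log u) +
      c2 * (Y + Real.log u) ^ 2 + c3 * (Y + Real.log u) ^ 3) * deriv Vk u =
      (c0 + c1 * Y + c2 * Y ^ 2 + c3 * Y ^ 3) - (c1 + 2 * c2 * Y + 3 * c3 * Y ^ 2) * m1 -
      (c2 + 3 * c3 * Y) * m2 - c3 * m3 := by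
    intro c0 c1 c2 c3 Y
    have h := hlin (c0 + c1 * Y + c2 * Y ^ 2 + c3 * Y ^ 3) (c1 + 2 * c2 * Y + 3 * c3 * Y ^ 2)
      (c2 + 3 * c3 * Y) c3
    rw [m0] at h
    have e : ∫ u in Ioi 0, (c0 + c1 * (Y + Real.log u) +
        c2 * (Y + Real.log u) ^ 2 + c3 * (Y + Real.log u) ^ 3) * deriv Vk u =
        ∫ u in Ioi 0, ((c0 + c1 * Y + c2 * Y ^ 2 + c3 * Y ^ 3) * (Real.log u ^ 0 * deriv Vk u) +
        (c1 + 2 * c2 * Y + 3 * c3 * Y ^ 2) * (Real.log u ^ 1 * deriv Vk u) +
        (c2 + 3 * c3 * Y) * (Real.log u ^ 2 * deriv Vk u) +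
        c3 * (Real.log u ^ 3 * deriv Vk u)) := by
      refine setIntegral_congr_fun measurableSet_Ioi fun u _ => ?_
      ring
    rw [e, h]
    ring
  refine ⟨a - 1 / 2 * m1, b - a * m1 - 1 / 4 * m2, a' - 1 / 4 * m1, b' - 2 * a' * m1 - 1 / 4 * m2,
    c' - b' * m1 - a' * m2 - 1 / 12 * m3, K0 * C * W + K1 * C * W + 1, by positivity,
    fun Y _ => ⟨?_, ?_⟩⟩
  · have h := err_int hC hb hd hcd (i := 0) (by norm_num) b a (1 / 4) 0 K0 hK0
      (fun x hx => by
        have := h0 x hx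
        rwa [show Real.log x ^ 2 / 4 + a * Real.log x + b = b + a * Real.log x +
          1 / 4 * Real.log x ^ 2 + 0 * Real.log x ^ 3 by ring] at this) Y
    rw [hexpr] at h
    have e : S0 Y = ∑' p : ℕ × ℕ, wi 0 p * Vk (Nx p / Real.exp Y) := by
      unfold S0
      refine tsum_congr fun p => ?_
      unfold wi Nx
      rw [pow_zero, Real.exp_neg, ← div_eq_mul_inv]
      ring
    rw [← e] at h
    have e2 : Y ^ 2 / 4 + (a - 1 / 2 * m1) * Y + (b - a * m1 - 1 / 4 * m2) =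
        (b + a * Y + 1 / 4 * Y ^ 2 + 0 * Y ^ 3) - (a + 2 * (1 / 4) * Y + 3 * 0 * Y ^ 2) * m1 -
        (1 / 4 + 3 * 0 * Y) * m2 - 0 * m3 := by ring
    rw [e2]
    refine h.trans ?_
    refine mul_le_mul_of_nonneg_right ?_ (Real.exp_pos _).le
    have : 0 ≤ K1 * C * W := by positivity
    rw [← hW]
    linarith
  · have h := err_int hC hb hd hcd (i := 1) (by norm_num) c' b' a' (1 / 12) K1 hK1
      (fun x hx => by
        have := h1 x hx
        rwa [show Real.log x ^ 3 / 12 + a' * Real.log x ^ 2 + b' * Real.log x + c' =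
          c' + b' * Real.log x + a' * Real.log x ^ 2 + 1 / 12 * Real.log x ^ 3 by ring] at this) Y
    rw [hexpr] at h
    have e : S1 Y = ∑' p : ℕ × ℕ, wi 1 p * Vk (Nx p / Real.exp Y) := by
      unfold S1
      refine tsum_congr fun p => ?_
      unfold wi Nx
      rw [pow_one, Real.exp_neg, ← div_eq_mul_inv]
      ring
    rw [← e] at h
    have e2 : Y ^ 3 / 12 + (a' - 1 / 4 * m1) * Y ^ 2 + (b' - 2 * a' * m1 - 1 / 4 * m2) * Y +
        (c' - b' * m1 - a' * m2 - 1 / 12 * m3) =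
        (c' + b' * Y + a' * Y ^ 2 + 1 / 12 * Y ^ 3) - (b' + 2 * a' * Y + 3 * (1 / 12) * Y ^ 2) * m1 -
        (a' + 3 * (1 / 12) * Y) * m2 - 1 / 12 * m3 := by ring
    rw [e2]
    refine h.trans ?_
    refine mul_le_mul_of_nonneg_right ?_ (Real.exp_pos _).le
    have : 0 ≤ K0 * C * W := by positivity
    rw [← hW]
    linarith

end Pool.Agent.H26.CN.SSA
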