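import Mathlib

/-!
# Sums of powers of logarithms divided by the variable
-/

set_option autoImplicit false

open MeasureTheory Set Filter
open scoped Real Topology

namespace Pool.Agent.H26.CN.SSA

/-- powers of logarithms are small -/
theorem log_pow_le (k : ℕ) (ε : ℝ) (hε : 0 < ε) :
    ∃ C : ℝ, 0 < C ∧ ∀ t : ℝ, 1 ≤ t → (1 + Real.log t) ^ k ≤ C * t ^ ε := by
  set e : ℝ := ε / (k + 1) with he
  have hk : (0 : ℝ) < k + 1 := by positivity
  have he0 : 0 < e := by positivity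
  refine ⟨(1 + 1 / e) ^ k, by positivity, fun t ht => ?_⟩
  have ht0 : 0 < t := by linarith
  have h1 : 1 + Real.log t ≤ (1 + 1 / e) * t ^ e := by
    have h2 := Real.log_le_rpow_div ht0.le he0
    have h3 : 1 ≤ t ^ e := Real.one_le_rpow ht he0.le
    calc 1 + Real.log t ≤ t ^ e + t ^ e / e := add_le_add h3 h2
      _ = _ := by ring
  have h0 : 0 ≤ Real.log t := Real.log_nonneg ht
  calc (1 + Real.log t) ^ k ≤ ((1 + 1 / e) * t ^ e) ^ k := by gcongr
    _ = (1 + 1 / e) ^ k * t ^ (e * k) := by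
      rw [mul_pow, ← Real.rpow_natCast (t ^ e) k, ← Real.rpow_mul ht0.le]
    _ ≤ (1 + 1 / e) ^ k * t ^ ε := by
      gcongr
      rw [he, div_mul_eq_mul_div, div_le_iff₀ hk]
      nlinarith

/-- a crude form of the Euler-Maclaurin formula -/
theorem euler_mac (f F f' : ℝ → ℝ) (C θ : ℝ) (hθ : 0 < θ) (hθ1 : θ ≤ 1)
    (hF : ∀ t : ℝ, 1 ≤ t → HasDerivAt F (f t) t) (hf : ∀ t : ℝ, 1 ≤ t → HasDerivAt f (f' t) t)
    (hf' : ∀ t : ℝ, 1 ≤ t → |f' t| ≤ C * t ^ (-1 - θ))
    (hfb : ∀ t : ℝ, 1 ≤ t → |f t| ≤ C * t ^ (-θ)) :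
    ∃ γ K : ℝ, 0 < K ∧ ∀ y : ℝ, 1 ≤ y →
      |∑ n ∈ Finset.Icc 1 ⌊y⌋₊, f n - (F y + γ)| ≤ K * y ^ (-θ) := by
  have hC : 0 ≤ C := by
    have := (abs_nonneg _).trans (hf' 1 le_rfl)
    simpa using this
  set u : ℕ → ℝ := fun N => ∑ n ∈ Finset.Icc 1 (N + 1), f n - F ((N : ℝ) + 1) with hu
  set v : ℕ → ℝ := fun N => ((N : ℝ) + 1) ^ (-θ) with hv
  set K : ℝ := 4 * C / θ with hK
  have hK0 : 0 ≤ K := by positivity
  have hstep : ∀ N : ℕ, |u (N + 1) - u N| ≤ K * (v N - v (N + 1)) := by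
    intro N
    have hN : (1 : ℝ) ≤ (N : ℝ) + 1 := by
      have : (0 : ℝ) ≤ N := Nat.cast_nonneg N
      linarith
    have hlt : (N : ℝ) + 1 < (N : ℝ) + 1 + 1 := by linarith
    have e1 : u (N + 1) - u N = f ((N : ℝ) + 1 + 1) - (F ((N : ℝ) + 1 + 1) - F ((N : ℝ) + 1)) := by
      simp only [hu]
      rw [Finset.sum_Icc_succ_top (by omega : 1 ≤ N + 1 + 1)]
      push_cast
      ring
    obtain ⟨ξ, hξ, hξ'⟩ := exists_hasDerivAt_eq_slope F f hlt
      (fun t ht => (hF t (hN.trans ht.1)).continuousAt.continuousWithinAt)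
      (fun t ht => hF t (hN.trans ht.1.le))
    have hden : (N : ℝ) + 1 + 1 - ((N : ℝ) + 1) = 1 := by ring
    rw [hden, div_one] at hξ'
    rw [e1, ← hξ']
    have h2 : |f ((N : ℝ) + 1 + 1) - f ξ| ≤ C * ((N : ℝ) + 1) ^ (-1 - θ) := by
      have h3 := Convex.norm_image_sub_le_of_norm_hasDerivWithin_le (f := f) (f' := f')
        (C := C * ((N : ℝ) + 1) ^ (-1 - θ)) (s := Icc ((N : ℝ) + 1) ((N : ℝ) + 1 + 1)) (x := ξ)
        (y := (N : ℝ) + 1 + 1)
        (fun t ht => (hf t (hN.trans ht.1)).hasDerivWithinAt)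
        (fun t ht => by
          rw [Real.norm_eq_abs]
          refine (hf' t (hN.trans ht.1)).trans ?_
          refine mul_le_mul_of_nonneg_left ?_ hC
          exact Real.rpow_le_rpow_of_nonpos (by linarith) ht.1 (by linarith))
        (convex_Icc _ _) ⟨hξ.1.le, hξ.2.le⟩ ⟨hlt.le, le_rfl⟩
      rw [Real.norm_eq_abs, Real.norm_eq_abs] at h3
      refine h3.trans ?_
      have h4 : |(N : ℝ) + 1 + 1 - ξ| ≤ 1 := by
        rw [abs_of_nonneg (by linarith [hξ.2])]
        linarith [hξ.1]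
      have h5 : 0 ≤ C * ((N : ℝ) + 1) ^ (-1 - θ) := by positivity
      nlinarith
    refine h2.trans ?_
    -- the telescoping comparison
    obtain ⟨η, hη, hη'⟩ := exists_hasDerivAt_eq_slope (fun t : ℝ => t ^ (-θ))
      (fun t : ℝ => -θ * t ^ (-θ - 1)) hlt
      (fun t ht => ContinuousAt.continuousWithinAt (Real.continuousAt_rpow_const t _
        (Or.inl (by linarith [ht.1]))))
      (fun t ht => Real.hasDerivAt_rpow_const (Or.inl (by linarith [ht.1])))
    rw [hden, div_one] at hη'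
    have h6 : v N - v (N + 1) = θ * η ^ (-θ - 1) := by
      simp only [hv]
      push_cast
      linarith
    rw [h6, hK]
    have h7 : ((N : ℝ) + 1) ^ (-1 - θ) ≤ 4 * η ^ (-θ - 1) := by
      have h8 : (2 * ((N : ℝ) + 1)) ^ (-θ - 1) ≤ η ^ (-θ - 1) :=
        Real.rpow_le_rpow_of_nonpos (by linarith [hη.1]) (by linarith [hη.2]) (by linarith)
      rw [Real.mul_rpow (by norm_num) (by linarith)] at h8
      have h9 : (1 : ℝ) / 4 ≤ 2 ^ (-θ - 1) := by
        have : (2 : ℝ) ^ (-2 : ℝ) ≤ 2 ^ (-θ - 1) :=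
          Real.rpow_le_rpow_of_exponent_le (by norm_num) (by linarith)
        refine le_trans (le_of_eq ?_) this
        rw [Real.rpow_neg (by norm_num)]
        norm_num
      have h10 : 0 < ((N : ℝ) + 1) ^ (-θ - 1) := Real.rpow_pos_of_pos (by linarith) _
      rw [show -1 - θ = -θ - 1 by ring]
      nlinarith
    calc C * ((N : ℝ) + 1) ^ (-1 - θ) ≤ C * (4 * η ^ (-θ - 1)) := by gcongr
      _ = 4 * C / θ * (θ * η ^ (-θ - 1)) := by field_simp
  have hanti : Antitone (fun N => u N + K * v N) := by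
    refine antitone_nat_of_succ_le fun N => ?_
    have := (abs_le.1 (hstep N)).2
    nlinarith
  have hmono : Monotone (fun N => u N - K * v N) := by
    refine monotone_nat_of_le_succ fun N => ?_
    have := (abs_le.1 (hstep N)).1
    nlinarith
  have hv0 : ∀ N, 0 ≤ v N := fun N => by
    simp only [hv]
    positivity
  have hbdd : BddBelow (Set.range (fun N => u N + K * v N)) := by
    refine ⟨u 0 - K * v 0, ?_⟩
    rintro _ ⟨N, rfl⟩
    have h1 := hmono (Nat.zero_le N)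
    simp only at h1 ⊢
    have := mul_nonneg hK0 (hv0 N)
    linarith
  have htend := tendsto_atTop_ciInf hanti hbdd
  set γ := ⨅ N, (u N + K * v N) with hγ
  have hvt : Tendsto v atTop (𝓝 0) := by
    have h1 : Tendsto (fun N : ℕ => (N : ℝ) + 1) atTop atTop :=
      tendsto_atTop_add_const_right _ _ tendsto_natCast_atTop_atTop
    exact (tendsto_rpow_neg_atTop hθ).comp h1
  have htend2 : Tendsto (fun N => u N - K * v N) atTop (𝓝 γ) := by
    have h1 : Tendsto (fun N => (u N + K * v N) - 2 * K * v N) atTop (𝓝 (γ - 2 * K * 0)) :=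
      htend.sub (hvt.const_mul (2 * K))
    rw [mul_zero, sub_zero] at h1
    refine h1.congr fun N => ?_
    ring
  have hmain : ∀ N, |u N - γ| ≤ K * v N := by
    intro N
    have h1 : γ ≤ u N + K * v N := ciInf_le hbdd N
    have h2 : u N - K * v N ≤ γ := hmono.ge_of_tendsto htend2 N
    rw [abs_le]
    constructor <;> linarith
  refine ⟨γ, 2 * (K + C) + 1, by positivity, fun y hy => ?_⟩
  have hN1 : 1 ≤ ⌊y⌋₊ := (Nat.one_le_floor_iff y).2 hy
  obtain ⟨N, hN⟩ : ∃ N, ⌊y⌋₊ = N + 1 := ⟨⌊y⌋₊ - 1, by omega⟩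
  have hfl : ((N : ℝ) + 1) ≤ y := by
    have := Nat.floor_le (by linarith : 0 ≤ y)
    rw [hN] at this
    push_cast at this
    exact this
  have hfl2 : y < (N : ℝ) + 1 + 1 := by
    have := Nat.lt_floor_add_one y
    rw [hN] at this
    push_cast at this
    exact this
  have hN0 : (0 : ℝ) ≤ N := Nat.cast_nonneg N
  have h1 := hmain N
  have h2 : |F y - F ((N : ℝ) + 1)| ≤ C * ((N : ℝ) + 1) ^ (-θ) := by
    have h3 := Convex.norm_image_sub_le_of_norm_hasDerivWithin_le (f := F) (f' := f)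
      (C := C * ((N : ℝ) + 1) ^ (-θ)) (s := Icc ((N : ℝ) + 1) y) (x := (N : ℝ) + 1)
      (y := y)
      (fun t ht => (hF t (by linarith [ht.1])).hasDerivWithinAt)
      (fun t ht => by
        rw [Real.norm_eq_abs]
        refine (hfb t (by linarith [ht.1])).trans ?_
        refine mul_le_mul_of_nonneg_left ?_ hC
        exact Real.rpow_le_rpow_of_nonpos (by linarith) ht.1 (by linarith))
      (convex_Icc _ _) ⟨le_rfl, hfl⟩ ⟨hfl, le_rfl⟩
    rw [Real.norm_eq_abs, Real.norm_eq_abs] at h3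
    refine h3.trans ?_
    have h4 : |y - ((N : ℝ) + 1)| ≤ 1 := by
      rw [abs_of_nonneg (by linarith)]
      linarith
    have h5 : 0 ≤ C * ((N : ℝ) + 1) ^ (-θ) := by positivity
    nlinarith
  have h6 : ((N : ℝ) + 1) ^ (-θ) ≤ 2 * y ^ (-θ) := by
    have h7 : (2 * ((N : ℝ) + 1)) ^ (-θ) ≤ y ^ (-θ) :=
      Real.rpow_le_rpow_of_nonpos (by linarith) (by linarith) (by linarith)
    rw [Real.mul_rpow (by norm_num) (by linarith)] at h7
    have h9 : (1 : ℝ) / 2 ≤ 2 ^ (-θ) := by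
      have : (2 : ℝ) ^ (-1 : ℝ) ≤ 2 ^ (-θ) :=
        Real.rpow_le_rpow_of_exponent_le (by norm_num) (by linarith)
      refine le_trans (le_of_eq ?_) this
      rw [Real.rpow_neg_one]
      norm_num
    have h10 : 0 < ((N : ℝ) + 1) ^ (-θ) := Real.rpow_pos_of_pos (by linarith) _
    nlinarith
  rw [hN]
  have e : ∑ n ∈ Finset.Icc 1 (N + 1), f n - (F y + γ) =
      (u N - γ) - (F y - F ((N : ℝ) + 1)) := by
    simp only [hu]
    ring
  rw [e]
  have hy0 : 0 < y ^ (-θ) := Real.rpow_pos_of_pos (by linarith) _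
  calc |(u N - γ) - (F y - F ((N : ℝ) + 1))| ≤ |u N - γ| + |F y - F ((N : ℝ) + 1)| := abs_sub _ _
    _ ≤ K * ((N : ℝ) + 1) ^ (-θ) + C * ((N : ℝ) + 1) ^ (-θ) := add_le_add h1 h2
    _ = (K + C) * ((N : ℝ) + 1) ^ (-θ) := by ring
    _ ≤ (K + C) * (2 * y ^ (-θ)) := by gcongr
    _ ≤ (2 * (K + C) + 1) * y ^ (-θ) := by nlinarith

/-- the sums -/
noncomputable def Hj (j : ℕ) (y : ℝ) : ℝ := ∑ n ∈ Finset.Icc 1 ⌊y⌋₊, Real.log n ^ j / n

theorem Hj_asymp (j : ℕ) : ∃ γ K : ℝ, 0 < K ∧ ∀ y : ℝ, 1 ≤ y →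
    |Hj j y - (Real.log y ^ (j + 1) / (j + 1) + γ)| ≤ K * y ^ (-(7 / 8) : ℝ) := by
  obtain ⟨C, hC, hlog⟩ := log_pow_le j (1 / 8) (by norm_num)
  refine euler_mac (fun t => Real.log t ^ j / t) (fun t => Real.log t ^ (j + 1) / (j + 1))
    (fun t => ((j : ℝ) * Real.log t ^ (j - 1) - Real.log t ^ j) / t ^ 2) ((j + 1) * C) (7 / 8)
    (by norm_num) (by norm_num) ?_ ?_ ?_ ?_
  · intro t ht
    have ht0 : t ≠ 0 := by linarith
    have h := ((Real.hasDerivAt_log ht0).pow (j + 1)).div_const ((j : ℝ) + 1)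
    refine h.congr_deriv ?_
    have hj : ((j : ℝ) + 1) ≠ 0 := by positivity
    push_cast
    field_simp
    try rw [Nat.add_sub_cancel]
  · intro t ht
    have ht0 : t ≠ 0 := by linarith
    have h := ((Real.hasDerivAt_log ht0).pow j).div (hasDerivAt_id t) ht0
    refine h.congr_deriv ?_
    simp only [id, Pi.pow_apply]
    field_simp
  · intro t ht
    have ht0 : 0 < t := by linarith
    have hl : 0 ≤ Real.log t := Real.log_nonneg ht
    rw [abs_div, abs_of_pos (by positivity : 0 < t ^ 2), div_le_iff₀ (by positivity)]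
    have h1 : |(j : ℝ) * Real.log t ^ (j - 1) - Real.log t ^ j| ≤ (j + 1) * (1 + Real.log t) ^ j := by
      have h2 : Real.log t ^ j ≤ (1 + Real.log t) ^ j := by gcongr; linarith
      have h3 : Real.log t ^ (j - 1) ≤ (1 + Real.log t) ^ j := by
        calc Real.log t ^ (j - 1) ≤ (1 + Real.log t) ^ (j - 1) := by gcongr; linarith
          _ ≤ _ := pow_le_pow_right₀ (by linarith) (by omega)
      calc |(j : ℝ) * Real.log t ^ (j - 1) - Real.log t ^ j| ≤
          |(j : ℝ) * Real.log t ^ (j - 1)| + |Real.log t ^ j| := abs_sub _ _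
        _ = (j : ℝ) * Real.log t ^ (j - 1) + Real.log t ^ j := by
          rw [abs_of_nonneg (by positivity), abs_of_nonneg (by positivity)]
        _ ≤ j * (1 + Real.log t) ^ j + (1 + Real.log t) ^ j := by gcongr
        _ = _ := by ring
    have h4 := hlog t ht
    refine h1.trans ?_
    have h5 : (j + 1 : ℝ) * C * t ^ (-1 - 7 / 8 : ℝ) * t ^ 2 = (j + 1) * (C * t ^ (1 / 8 : ℝ)) := by
      rw [mul_assoc, ← Real.rpow_natCast t 2, ← Real.rpow_add ht0]
      norm_num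
      ring
    rw [h5]
    gcongr
  · intro t ht
    have ht0 : 0 < t := by linarith
    have hl : 0 ≤ Real.log t := Real.log_nonneg ht
    rw [abs_div, abs_of_pos ht0, div_le_iff₀ ht0, abs_of_nonneg (by positivity)]
    have h2 : Real.log t ^ j ≤ (1 + Real.log t) ^ j := by gcongr; linarith
    have h4 := hlog t ht
    have h5 : (j + 1 : ℝ) * C * t ^ (-(7 / 8) : ℝ) * t = (j + 1) * (C * t ^ (1 / 8 : ℝ)) := by
      rw [mul_assoc, mul_assoc]
      nth_rewrite 2 [← Real.rpow_one t]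
      rw [← Real.rpow_add ht0]
      norm_num
    rw [h5]
    have h6 : 0 ≤ C * t ^ (1 / 8 : ℝ) := by positivity
    have hj : (0 : ℝ) ≤ j := Nat.cast_nonneg j
    nlinarith

end Pool.Agent.H26.CN.SSA
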