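import Pool.Agent.H26.CN.SSA1

/-!
# Summatory functions over pairs: the hyperbola method
-/

set_option autoImplicit false

open MeasureTheory Set Filter
open scoped Real Topology

namespace Pool.Agent.H26.CN.SSA

/-- the pairs below `x` -/
noncomputable def Sx (x : ℝ) : Finset (ℕ × ℕ) :=
  ((Finset.Icc 1 ⌊x⌋₊) ×ˢ (Finset.Icc 1 ⌊x⌋₊)).filter (fun p => (p.1 : ℝ) ^ 2 * p.2 ≤ x)

theorem mem_Sx {x : ℝ} {p : ℕ × ℕ} :
    p ∈ Sx x ↔ 1 ≤ p.1 ∧ 1 ≤ p.2 ∧ (p.1 : ℝ) ^ 2 * p.2 ≤ x := by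
  unfold Sx
  rw [Finset.mem_filter, Finset.mem_product, Finset.mem_Icc, Finset.mem_Icc]
  constructor
  · rintro ⟨⟨⟨h1, -⟩, h2, -⟩, h3⟩
    exact ⟨h1, h2, h3⟩
  · rintro ⟨h1, h2, h3⟩
    have h1' : (1 : ℝ) ≤ p.1 := by exact_mod_cast h1
    have h2' : (1 : ℝ) ≤ p.2 := by exact_mod_cast h2
    have h4 : (1 : ℝ) ≤ (p.1 : ℝ) ^ 2 := one_le_pow₀ h1'
    refine ⟨⟨⟨h1, Nat.le_floor ?_⟩, h2, Nat.le_floor ?_⟩, h3⟩
    · refine le_trans ?_ h3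
      nlinarith
    · refine le_trans ?_ h3
      nlinarith

/-- the weights -/
noncomputable def wi (i : ℕ) (p : ℕ × ℕ) : ℝ := Real.log p.2 ^ i / ((p.1 : ℝ) * p.2)

/-- the summatory function -/
noncomputable def Di (i : ℕ) (x : ℝ) : ℝ := ∑ p ∈ Sx x, wi i p

theorem hyperbola (i : ℕ) {z : ℝ} (hz : 1 ≤ z) :
    Di i (z ^ 3) = (∑ e ∈ Finset.Icc 1 ⌊z⌋₊, 1 / (e : ℝ) * Hj i (z ^ 3 / (e : ℝ) ^ 2)) +
      (∑ A ∈ Finset.Icc 1 ⌊z⌋₊, Real.log A ^ i / (A : ℝ) * Hj 0 (Real.sqrt (z ^ 3 / A))) -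
      Hj 0 z * Hj i z := by
  have hz0 : 0 < z := by linarith
  set S1 := (Sx (z ^ 3)).filter (fun p => (p.1 : ℝ) ≤ z) with hS1
  set S2 := (Sx (z ^ 3)).filter (fun p => (p.2 : ℝ) ≤ z) with hS2
  have hU : S1 ∪ S2 = Sx (z ^ 3) := by
    ext p
    rw [Finset.mem_union, hS1, hS2, Finset.mem_filter, Finset.mem_filter]
    constructor
    · rintro (h | h) <;> exact h.1
    · intro h
      by_cases h1 : (p.1 : ℝ) ≤ z
      · exact Or.inl ⟨h, h1⟩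
      · refine Or.inr ⟨h, ?_⟩
        by_contra h2
        rw [not_le] at h1 h2
        have h3 := (mem_Sx.1 h).2.2
        have h4 : z ^ 2 < (p.1 : ℝ) ^ 2 := by gcongr
        have h5 : z ^ 3 < (p.1 : ℝ) ^ 2 * p.2 := by
          calc z ^ 3 = z ^ 2 * z := by ring
            _ < (p.1 : ℝ) ^ 2 * p.2 := by gcongr
        linarith
  have hI : S1 ∩ S2 = Finset.Icc 1 ⌊z⌋₊ ×ˢ Finset.Icc 1 ⌊z⌋₊ := by
    ext p
    rw [Finset.mem_inter, hS1, hS2, Finset.mem_filter, Finset.mem_filter, Finset.mem_product,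
      Finset.mem_Icc, Finset.mem_Icc, Nat.le_floor_iff hz0.le, Nat.le_floor_iff hz0.le, mem_Sx]
    constructor
    · rintro ⟨⟨⟨h1, h2, h3⟩, h4⟩, -, h5⟩
      exact ⟨⟨h1, h4⟩, h2, h5⟩
    · rintro ⟨⟨h1, h4⟩, h2, h5⟩
      have h6 : (p.1 : ℝ) ^ 2 * p.2 ≤ z ^ 3 := by
        calc (p.1 : ℝ) ^ 2 * p.2 ≤ z ^ 2 * z := by gcongr
          _ = z ^ 3 := by ring
      exact ⟨⟨⟨h1, h2, h6⟩, h4⟩, ⟨h1, h2, h6⟩, h5⟩
  have hsum := Finset.sum_union_inter (s₁ := S1) (s₂ := S2) (f := wi i)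
  rw [hU, hI] at hsum
  have h1 : ∑ p ∈ S1, wi i p = ∑ e ∈ Finset.Icc 1 ⌊z⌋₊, 1 / (e : ℝ) * Hj i (z ^ 3 / (e : ℝ) ^ 2) := by
    rw [Finset.sum_finset_product S1 (Finset.Icc 1 ⌊z⌋₊)
      (fun e => Finset.Icc 1 ⌊z ^ 3 / (e : ℝ) ^ 2⌋₊)]
    · refine Finset.sum_congr rfl fun e _ => ?_
      unfold Hj
      rw [Finset.mul_sum]
      refine Finset.sum_congr rfl fun A _ => ?_
      unfold wi
      rw [div_mul_div_comm, one_mul]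
    · intro p
      rw [hS1, Finset.mem_filter, mem_Sx, Finset.mem_Icc, Finset.mem_Icc,
        Nat.le_floor_iff hz0.le, Nat.le_floor_iff (by positivity)]
      constructor
      · rintro ⟨⟨h1, h2, h3⟩, h4⟩
        have h1' : (1 : ℝ) ≤ p.1 := by exact_mod_cast h1
        refine ⟨⟨h1, h4⟩, h2, ?_⟩
        rw [le_div_iff₀ (by positivity)]
        linarith
      · rintro ⟨⟨h1, h4⟩, h2, h3⟩
        have h1' : (1 : ℝ) ≤ p.1 := by exact_mod_cast h1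
        rw [le_div_iff₀ (by positivity)] at h3
        exact ⟨⟨h1, h2, by linarith⟩, h4⟩
  have h2 : ∑ p ∈ S2, wi i p = ∑ A ∈ Finset.Icc 1 ⌊z⌋₊, Real.log A ^ i / (A : ℝ) *
      Hj 0 (Real.sqrt (z ^ 3 / A)) := by
    rw [Finset.sum_finset_product_right S2 (Finset.Icc 1 ⌊z⌋₊)
      (fun A => Finset.Icc 1 ⌊Real.sqrt (z ^ 3 / A)⌋₊)]
    · refine Finset.sum_congr rfl fun A _ => ?_
      unfold Hj
      rw [Finset.mul_sum]
      refine Finset.sum_congr rfl fun e _ => ?_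
      unfold wi
      rw [pow_zero, div_mul_div_comm, mul_one, mul_comm (A : ℝ)]
    · intro p
      rw [hS2, Finset.mem_filter, mem_Sx, Finset.mem_Icc, Finset.mem_Icc,
        Nat.le_floor_iff hz0.le, Nat.le_floor_iff (by positivity)]
      constructor
      · rintro ⟨⟨h1, h2, h3⟩, h4⟩
        have h2' : (1 : ℝ) ≤ p.2 := by exact_mod_cast h2
        refine ⟨⟨h2, h4⟩, h1, ?_⟩
        refine Real.le_sqrt_of_sq_le ?_
        rw [le_div_iff₀ (by positivity)]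
        exact h3
      · rintro ⟨⟨h2, h4⟩, h1, h3⟩
        have h2' : (1 : ℝ) ≤ p.2 := by exact_mod_cast h2
        have h5 : (p.1 : ℝ) ^ 2 ≤ z ^ 3 / p.2 := by
          have h6 : 0 ≤ z ^ 3 / (p.2 : ℝ) := by positivity
          calc (p.1 : ℝ) ^ 2 ≤ Real.sqrt (z ^ 3 / p.2) ^ 2 := by gcongr
            _ = _ := Real.sq_sqrt h6
        rw [le_div_iff₀ (by positivity)] at h5
        exact ⟨⟨h1, h2, h5⟩, h4⟩
  have h3 : ∑ p ∈ Finset.Icc 1 ⌊z⌋₊ ×ˢ Finset.Icc 1 ⌊z⌋₊, wi i p = Hj 0 z * Hj i z := by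
    unfold Hj
    rw [Finset.sum_mul_sum, Finset.sum_product]
    refine Finset.sum_congr rfl fun e _ => Finset.sum_congr rfl fun A _ => ?_
    unfold wi
    rw [pow_zero, div_mul_div_comm, one_mul]
  rw [h1, h2, h3] at hsum
  unfold Di
  linarith

theorem Hj_nonneg (j : ℕ) (y : ℝ) : 0 ≤ Hj j y := by
  unfold Hj
  refine Finset.sum_nonneg fun n hn => ?_
  have : (1 : ℝ) ≤ n := by exact_mod_cast (Finset.mem_Icc.1 hn).1
  have := Real.log_nonneg this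
  positivity

/-- the first sum of the hyperbola method -/
theorem sum_one (i : ℕ) {γ K : ℝ} (hK : 0 < K)
    (hH : ∀ y : ℝ, 1 ≤ y →
      |Hj i y - (Real.log y ^ (i + 1) / (i + 1) + γ)| ≤ K * y ^ (-(7 / 8) : ℝ))
    {z : ℝ} (hz : 1 ≤ z) :
    |(∑ e ∈ Finset.Icc 1 ⌊z⌋₊, 1 / (e : ℝ) * Hj i (z ^ 3 / (e : ℝ) ^ 2)) -
      ∑ e ∈ Finset.Icc 1 ⌊z⌋₊, 1 / (e : ℝ) * ((3 * Real.log z - 2 * Real.log e) ^ (i + 1) / (i + 1)
        + γ)| ≤ K * z ^ (-(7 / 8) : ℝ) * Hj 0 z := by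
  have hz0 : 0 < z := by linarith
  rw [← Finset.sum_sub_distrib]
  refine (Finset.abs_sum_le_sum_abs _ _).trans ?_
  unfold Hj
  rw [Finset.mul_sum]
  refine Finset.sum_le_sum fun e he => ?_
  rw [Finset.mem_Icc, Nat.le_floor_iff hz0.le] at he
  have he1 : (1 : ℝ) ≤ e := by exact_mod_cast he.1
  have he0 : (0 : ℝ) < e := by linarith
  have hy : z ≤ z ^ 3 / (e : ℝ) ^ 2 := by
    rw [le_div_iff₀ (by positivity)]
    calc z * (e : ℝ) ^ 2 ≤ z * z ^ 2 := by gcongr; exact he.2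
      _ = z ^ 3 := by ring
  have h1 := hH (z ^ 3 / (e : ℝ) ^ 2) (hz.trans hy)
  have hlog : Real.log (z ^ 3 / (e : ℝ) ^ 2) = 3 * Real.log z - 2 * Real.log e := by
    rw [Real.log_div (by positivity) (by positivity), Real.log_pow, Real.log_pow]
    push_cast
    ring
  rw [hlog] at h1
  rw [← mul_sub, abs_mul, abs_of_pos (by positivity : (0 : ℝ) < 1 / (e : ℝ)), pow_zero]
  have h2 : (z ^ 3 / (e : ℝ) ^ 2) ^ (-(7 / 8) : ℝ) ≤ z ^ (-(7 / 8) : ℝ) :=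
    Real.rpow_le_rpow_of_nonpos hz0 hy (by norm_num)
  have h3 := h1.trans (mul_le_mul_of_nonneg_left h2 hK.le)
  unfold Hj at h3
  rw [mul_comm (K * z ^ (-(7 / 8) : ℝ))]
  exact mul_le_mul_of_nonneg_left h3 (by positivity)

/-- the second sum of the hyperbola method -/
theorem sum_two (i : ℕ) {γ K : ℝ} (hK : 0 < K)
    (hH : ∀ y : ℝ, 1 ≤ y → |Hj 0 y - (Real.log y + γ)| ≤ K * y ^ (-(7 / 8) : ℝ))
    {z : ℝ} (hz : 1 ≤ z) :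
    |(∑ A ∈ Finset.Icc 1 ⌊z⌋₊, Real.log A ^ i / (A : ℝ) * Hj 0 (Real.sqrt (z ^ 3 / A))) -
      ∑ A ∈ Finset.Icc 1 ⌊z⌋₊, Real.log A ^ i / (A : ℝ) * ((3 * Real.log z - Real.log A) / 2 + γ)|
      ≤ K * z ^ (-(7 / 8) : ℝ) * Hj i z := by
  have hz0 : 0 < z := by linarith
  rw [← Finset.sum_sub_distrib]
  refine (Finset.abs_sum_le_sum_abs _ _).trans ?_
  have e0 : Hj i z = ∑ n ∈ Finset.Icc 1 ⌊z⌋₊, Real.log n ^ i / n := rfl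
  rw [e0, Finset.mul_sum]
  refine Finset.sum_le_sum fun A hA => ?_
  rw [Finset.mem_Icc, Nat.le_floor_iff hz0.le] at hA
  have hA1 : (1 : ℝ) ≤ A := by exact_mod_cast hA.1
  have hA0 : (0 : ℝ) < A := by linarith
  have hy : z ≤ Real.sqrt (z ^ 3 / A) := by
    refine Real.le_sqrt_of_sq_le ?_
    rw [le_div_iff₀ hA0]
    calc z ^ 2 * (A : ℝ) ≤ z ^ 2 * z := by gcongr; exact hA.2
      _ = z ^ 3 := by ring
  have h1 := hH (Real.sqrt (z ^ 3 / A)) (hz.trans hy)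
  have hlog : Real.log (Real.sqrt (z ^ 3 / A)) = (3 * Real.log z - Real.log A) / 2 := by
    rw [Real.log_sqrt (by positivity), Real.log_div (by positivity) hA0.ne', Real.log_pow]
    push_cast
    ring
  rw [hlog] at h1
  have hlA : 0 ≤ Real.log A := Real.log_nonneg hA1
  rw [← mul_sub, abs_mul, abs_of_nonneg (by positivity : (0 : ℝ) ≤ Real.log A ^ i / (A : ℝ))]
  have h2 : (Real.sqrt (z ^ 3 / A)) ^ (-(7 / 8) : ℝ) ≤ z ^ (-(7 / 8) : ℝ) :=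
    Real.rpow_le_rpow_of_nonpos hz0 hy (by norm_num)
  have h3 := h1.trans (mul_le_mul_of_nonneg_left h2 hK.le)
  rw [mul_comm (K * z ^ (-(7 / 8) : ℝ))]
  exact mul_le_mul_of_nonneg_left h3 (by positivity)

theorem aux_L {l : ℝ} (hl : 0 ≤ l) : 1 ≤ (1 + l) ^ 2 ∧ 1 + l ≤ (1 + l) ^ 2 ∧ l ^ 2 ≤ (1 + l) ^ 2 := by
  refine ⟨by nlinarith, by nlinarith, by nlinarith⟩

theorem aux_X {G δ L : ℝ} (hG : 1 ≤ G) (hδ0 : 0 ≤ δ) (hL : 1 ≤ L) :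
    G * δ ≤ G * G * (δ * L) ∧ G * (δ * L) ≤ G * G * (δ * L) := by
  have h1 : δ ≤ δ * L := le_mul_of_one_le_right hδ0 hL
  have h2 : G ≤ G * G := le_mul_of_one_le_right (by linarith) hG
  have h3 : 0 ≤ δ * L := hδ0.trans h1
  refine ⟨mul_le_mul h2 h1 hδ0 (by positivity), mul_le_mul_of_nonneg_right h2 h3⟩

theorem aux_mul {a ε M G δ L : ℝ} (ha : |a| ≤ M * L) (hε : |ε| ≤ G * δ)
    (hG : 1 ≤ G) (hδ0 : 0 ≤ δ) (hM : 0 ≤ M * L) :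
    |a * ε| ≤ M * (G * (δ * L)) := by
  rw [abs_mul]
  calc |a| * |ε| ≤ (M * L) * (G * δ) := mul_le_mul ha hε (abs_nonneg _) hM
    _ = _ := by ring

theorem alg_zero {G l δ γ0 γ1 h0 h1 u1 u2 : ℝ} (hG : 1 ≤ G) (hl : 0 ≤ l) (hδ0 : 0 ≤ δ)
    (hδ1 : δ ≤ 1) (g0 : |γ0| ≤ G) (hh0 : 0 ≤ h0) (b0 : |h0 - (l + γ0)| ≤ G * δ)
    (b1 : |h1 - (l ^ 2 / 2 + γ1)| ≤ G * δ)
    (s1 : |u1 - ((3 * l + γ0) * h0 - 2 * h1)| ≤ G * δ * h0)
    (s2 : |u2 - ((3 / 2 * l + γ0) * h0 - 1 / 2 * h1)| ≤ G * δ * h0) :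
    |u1 + u2 - h0 * h0 - ((3 * l) ^ 2 / 4 + 3 / 2 * γ0 * (3 * l) + (γ0 ^ 2 - 5 / 2 * γ1))| ≤
      20 * G * G * (δ * (1 + l) ^ 2) := by
  obtain ⟨hL1, hL2, -⟩ := aux_L hl
  obtain ⟨x1, x2⟩ := aux_X hG hδ0 hL1
  have hh : h0 ≤ 3 * G * (1 + l) ^ 2 := by
    have h2 := (abs_le.1 b0).2
    have h3 := (abs_le.1 g0).2
    have h4 : G * δ ≤ G := mul_le_of_le_one_right (by linarith) hδ1
    have h5 : G ≤ G * (1 + l) ^ 2 := le_mul_of_one_le_right (by linarith) hL1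
    have h6 : (1 + l) ^ 2 ≤ G * (1 + l) ^ 2 := le_mul_of_one_le_left (by positivity) hG
    linarith
  have hρ : G * δ * h0 ≤ 3 * (G * G * (δ * (1 + l) ^ 2)) := by
    calc G * δ * h0 ≤ G * δ * (3 * G * (1 + l) ^ 2) :=
          mul_le_mul_of_nonneg_left hh (by positivity)
      _ = _ := by ring
  have t1 : |(5 / 2 * l) * (h0 - (l + γ0))| ≤ 3 * (G * (δ * (1 + l) ^ 2)) :=
    aux_mul (by rw [abs_of_nonneg (by positivity)]; linarith) b0 hG hδ0 (by positivity)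
  have t3 : |(h0 - (l + γ0)) * (h0 - (l + γ0))| ≤ G * (G * (δ * (1 + l) ^ 2)) := by
    refine aux_mul ?_ b0 hG hδ0 (by positivity)
    refine b0.trans ?_
    have h4 : G * δ ≤ G := mul_le_of_le_one_right (by linarith) hδ1
    have h5 : G ≤ G * (1 + l) ^ 2 := le_mul_of_one_le_right (by linarith) hL1
    linarith
  have key : u1 + u2 - h0 * h0 - ((3 * l) ^ 2 / 4 + 3 / 2 * γ0 * (3 * l) +
      (γ0 ^ 2 - 5 / 2 * γ1)) = (5 / 2 * l) * (h0 - (l + γ0)) - 5 / 2 * (h1 - (l ^ 2 / 2 + γ1)) -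
      (h0 - (l + γ0)) * (h0 - (l + γ0)) + (u1 - ((3 * l + γ0) * h0 - 2 * h1)) +
      (u2 - ((3 / 2 * l + γ0) * h0 - 1 / 2 * h1)) := by ring
  rw [key]
  have e1 : 20 * G * G * (δ * (1 + l) ^ 2) = 20 * (G * G * (δ * (1 + l) ^ 2)) := by ring
  have e2 : G * (G * (δ * (1 + l) ^ 2)) = G * G * (δ * (1 + l) ^ 2) := by ring
  rw [e1]
  rw [e2] at t3
  generalize G * G * (δ * (1 + l) ^ 2) = X at *
  have s1' := s1.trans hρ
  have s2' := s2.trans hρ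
  have b1' := b1.trans x1
  have t1' := t1.trans (mul_le_mul_of_nonneg_left x2 (by norm_num : (0 : ℝ) ≤ 3))
  clear key e1 e2 s1 s2 b1 t1 hρ x1 x2 hh b0 g0 hL1 hL2
  rw [abs_le] at t1' t3 b1' s1' s2' ⊢
  obtain ⟨p1, q1⟩ := t1'
  obtain ⟨p2, q2⟩ := t3
  obtain ⟨p3, q3⟩ := b1'
  obtain ⟨p4, q4⟩ := s1'
  obtain ⟨p5, q5⟩ := s2'
  generalize (5 / 2 * l) * (h0 - (l + γ0)) = y1 at *
  generalize (h0 - (l + γ0)) * (h0 - (l + γ0)) = y2 at *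
  generalize h1 - (l ^ 2 / 2 + γ1) = y3 at *
  generalize u1 - ((3 * l + γ0) * h0 - 2 * h1) = y4 at *
  generalize u2 - ((3 / 2 * l + γ0) * h0 - 1 / 2 * h1) = y5 at *
  constructor <;> linarith

theorem alg_one {G l δ γ0 γ1 γ2 h0 h1 h2 u1 u2 : ℝ} (hG : 1 ≤ G) (hl : 0 ≤ l) (hδ0 : 0 ≤ δ)
    (hδ1 : δ ≤ 1) (g0 : |γ0| ≤ G) (g1 : |γ1| ≤ G) (b0 : |h0 - (l + γ0)| ≤ G * δ)
    (b1 : |h1 - (l ^ 2 / 2 + γ1)| ≤ G * δ) (b2 : |h2 - (l ^ 3 / 3 + γ2)| ≤ G * δ)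
    (s1 : |u1 - ((9 / 2 * l ^ 2 + γ1) * h0 - 6 * l * h1 + 2 * h2)| ≤ G * δ * h0)
    (s2 : |u2 - ((3 / 2 * l + γ0) * h1 - 1 / 2 * h2)| ≤ G * δ * h1) (hh0 : 0 ≤ h0)
    (hh1 : 0 ≤ h1) :
    |u1 + u2 - h0 * h1 - ((3 * l) ^ 3 / 12 + 1 / 2 * γ0 * (3 * l) ^ 2 + (-(3 / 2) * γ1) * (3 * l) +
      (3 / 2 * γ2 + γ0 * γ1))| ≤ 30 * G * G * (δ * (1 + l) ^ 2) := by
  obtain ⟨hL1, hL2, hL3⟩ := aux_L hl
  obtain ⟨x1, x2⟩ := aux_X hG hδ0 hL1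
  have h4 : G * δ ≤ G := mul_le_of_le_one_right (by linarith) hδ1
  have h5 : G ≤ G * (1 + l) ^ 2 := le_mul_of_one_le_right (by linarith) hL1
  have h6 : (1 + l) ^ 2 ≤ G * (1 + l) ^ 2 := le_mul_of_one_le_left (by positivity) hG
  have hh : h0 ≤ 3 * G * (1 + l) ^ 2 := by
    have h2 := (abs_le.1 b0).2
    have h3 := (abs_le.1 g0).2
    linarith
  have hh' : h1 ≤ 3 * G * (1 + l) ^ 2 := by
    have h2 := (abs_le.1 b1).2
    have h3 := (abs_le.1 g1).2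
    linarith
  have hρ : G * δ * h0 ≤ 3 * (G * G * (δ * (1 + l) ^ 2)) := by
    calc G * δ * h0 ≤ G * δ * (3 * G * (1 + l) ^ 2) :=
          mul_le_mul_of_nonneg_left hh (by positivity)
      _ = _ := by ring
  have hρ' : G * δ * h1 ≤ 3 * (G * G * (δ * (1 + l) ^ 2)) := by
    calc G * δ * h1 ≤ G * δ * (3 * G * (1 + l) ^ 2) :=
          mul_le_mul_of_nonneg_left hh' (by positivity)
      _ = _ := by ring
  have t1 : |(4 * l ^ 2) * (h0 - (l + γ0))| ≤ 4 * (G * (δ * (1 + l) ^ 2)) :=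
    aux_mul (by rw [abs_of_nonneg (by positivity)]; linarith) b0 hG hδ0 (by positivity)
  have t2 : |(11 / 2 * l) * (h1 - (l ^ 2 / 2 + γ1))| ≤ 6 * (G * (δ * (1 + l) ^ 2)) :=
    aux_mul (by rw [abs_of_nonneg (by positivity)]; linarith) b1 hG hδ0 (by positivity)
  have t3 : |(h1 - (l ^ 2 / 2 + γ1)) * (h0 - (l + γ0))| ≤ G * (G * (δ * (1 + l) ^ 2)) := by
    refine aux_mul ?_ b0 hG hδ0 (by positivity)
    refine b1.trans ?_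
    linarith
  have key : u1 + u2 - h0 * h1 - ((3 * l) ^ 3 / 12 + 1 / 2 * γ0 * (3 * l) ^ 2 +
      (-(3 / 2) * γ1) * (3 * l) + (3 / 2 * γ2 + γ0 * γ1)) =
      (4 * l ^ 2) * (h0 - (l + γ0)) - (11 / 2 * l) * (h1 - (l ^ 2 / 2 + γ1)) +
      3 / 2 * (h2 - (l ^ 3 / 3 + γ2)) - (h1 - (l ^ 2 / 2 + γ1)) * (h0 - (l + γ0)) +
      (u1 - ((9 / 2 * l ^ 2 + γ1) * h0 - 6 * l * h1 + 2 * h2)) +
      (u2 - ((3 / 2 * l + γ0) * h1 - 1 / 2 * h2)) := by ring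
  rw [key]
  have e1 : 30 * G * G * (δ * (1 + l) ^ 2) = 30 * (G * G * (δ * (1 + l) ^ 2)) := by ring
  have e2 : G * (G * (δ * (1 + l) ^ 2)) = G * G * (δ * (1 + l) ^ 2) := by ring
  rw [e1]
  rw [e2] at t3
  generalize G * G * (δ * (1 + l) ^ 2) = X at *
  have s1' := s1.trans hρ
  have s2' := s2.trans hρ'
  have b2' := b2.trans x1
  have t1' := t1.trans (mul_le_mul_of_nonneg_left x2 (by norm_num : (0 : ℝ) ≤ 4))
  have t2' := t2.trans (mul_le_mul_of_nonneg_left x2 (by norm_num : (0 : ℝ) ≤ 6))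
  clear key e1 e2 s1 s2 b1 b2 t1 t2 hρ hρ' x1 x2 hh hh' b0 g0 g1 hL1 hL2 hL3 h4 h5 h6
  rw [abs_le] at t1' t2' t3 b2' s1' s2' ⊢
  obtain ⟨p1, q1⟩ := t1'
  obtain ⟨p2, q2⟩ := t3
  obtain ⟨p3, q3⟩ := b2'
  obtain ⟨p4, q4⟩ := s1'
  obtain ⟨p5, q5⟩ := s2'
  obtain ⟨p6, q6⟩ := t2'
  generalize (4 * l ^ 2) * (h0 - (l + γ0)) = y1 at *
  generalize (h1 - (l ^ 2 / 2 + γ1)) * (h0 - (l + γ0)) = y2 at *
  generalize h2 - (l ^ 3 / 3 + γ2) = y3 at *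
  generalize u1 - ((9 / 2 * l ^ 2 + γ1) * h0 - 6 * l * h1 + 2 * h2) = y4 at *
  generalize u2 - ((3 / 2 * l + γ0) * h1 - 1 / 2 * h2) = y5 at *
  generalize (11 / 2 * l) * (h1 - (l ^ 2 / 2 + γ1)) = y6 at *
  constructor <;> linarith

end Pool.Agent.H26.CN.SSA
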