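import Pool.Agent.H26.CN.SSA2

/-!
# The summatory functions, asymptotically
-/

set_option autoImplicit false

open MeasureTheory Set Filter
open scoped Real Topology

namespace Pool.Agent.H26.CN.SSA

theorem r_one (z γ : ℝ) : ∑ e ∈ Finset.Icc 1 ⌊z⌋₊, 1 / (e : ℝ) *
    ((3 * Real.log z - 2 * Real.log e) ^ (0 + 1) / ((0 : ℕ) + 1) + γ) =
      (3 * Real.log z + γ) * Hj 0 z - 2 * Hj 1 z := by
  unfold Hj
  rw [Finset.mul_sum, Finset.mul_sum, ← Finset.sum_sub_distrib]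
  refine Finset.sum_congr rfl fun e _ => ?_
  push_cast
  ring

theorem r_two (z γ : ℝ) : ∑ A ∈ Finset.Icc 1 ⌊z⌋₊, Real.log A ^ 0 / (A : ℝ) *
    ((3 * Real.log z - Real.log A) / 2 + γ) =
      (3 / 2 * Real.log z + γ) * Hj 0 z - 1 / 2 * Hj 1 z := by
  unfold Hj
  rw [Finset.mul_sum, Finset.mul_sum, ← Finset.sum_sub_distrib]
  refine Finset.sum_congr rfl fun e _ => ?_
  ring

theorem r_three (z γ : ℝ) : ∑ e ∈ Finset.Icc 1 ⌊z⌋₊, 1 / (e : ℝ) *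
    ((3 * Real.log z - 2 * Real.log e) ^ (1 + 1) / ((1 : ℕ) + 1) + γ) =
      (9 / 2 * Real.log z ^ 2 + γ) * Hj 0 z - 6 * Real.log z * Hj 1 z + 2 * Hj 2 z := by
  unfold Hj
  rw [Finset.mul_sum, Finset.mul_sum, Finset.mul_sum, ← Finset.sum_sub_distrib,
    ← Finset.sum_add_distrib]
  refine Finset.sum_congr rfl fun e _ => ?_
  push_cast
  ring

theorem r_four (z γ : ℝ) : ∑ A ∈ Finset.Icc 1 ⌊z⌋₊, Real.log A ^ 1 / (A : ℝ) *
    ((3 * Real.log z - Real.log A) / 2 + γ) =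
      (3 / 2 * Real.log z + γ) * Hj 1 z - 1 / 2 * Hj 2 z := by
  unfold Hj
  rw [Finset.mul_sum, Finset.mul_sum, ← Finset.sum_sub_distrib]
  refine Finset.sum_congr rfl fun e _ => ?_
  ring

theorem Dz_zero : ∃ a b C : ℝ, 0 < C ∧ ∀ z : ℝ, 1 ≤ z →
    |Di 0 (z ^ 3) - ((3 * Real.log z) ^ 2 / 4 + a * (3 * Real.log z) + b)| ≤
      C * (z ^ (-(7 / 8) : ℝ) * (1 + Real.log z) ^ 2) := by
  obtain ⟨γ0, K0, hK0, hH0⟩ := Hj_asymp 0
  obtain ⟨γ1, K1, hK1, hH1⟩ := Hj_asymp 1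
  obtain ⟨G, hG⟩ : ∃ G, G = 1 + |γ0| + |γ1| + K0 + K1 := ⟨_, rfl⟩
  have a0 := abs_nonneg γ0
  have a1 := abs_nonneg γ1
  have hG1 : 1 ≤ G := by linarith
  refine ⟨3 / 2 * γ0, γ0 ^ 2 - 5 / 2 * γ1, 20 * G * G, by positivity, fun z hz => ?_⟩
  have hz0 : 0 < z := by linarith
  have hl : 0 ≤ Real.log z := Real.log_nonneg hz
  have hH0' : ∀ y : ℝ, 1 ≤ y → |Hj 0 y - (Real.log y + γ0)| ≤ K0 * y ^ (-(7 / 8) : ℝ) := by
    intro y hy
    have h := hH0 y hy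
    have e : Real.log y ^ (0 + 1) / ((0 : ℕ) + 1 : ℝ) = Real.log y := by
      push_cast
      ring
    rwa [e] at h
  have s1 := sum_one 0 hK0 hH0 hz
  have s2 := sum_two 0 hK0 hH0' hz
  rw [r_one] at s1
  rw [r_two] at s2
  have e2 := hH1 z hz
  have e3 : Real.log z ^ (1 + 1) / ((1 : ℕ) + 1 : ℝ) = Real.log z ^ 2 / 2 := by
    push_cast
    ring
  rw [e3] at e2
  have hδ0 : 0 ≤ z ^ (-(7 / 8) : ℝ) := by positivity
  have hδ1 : z ^ (-(7 / 8) : ℝ) ≤ 1 := Real.rpow_le_one_of_one_le_of_nonpos hz (by norm_num)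
  have hn := Hj_nonneg 0 z
  have k0 : K0 * z ^ (-(7 / 8) : ℝ) ≤ G * z ^ (-(7 / 8) : ℝ) :=
    mul_le_mul_of_nonneg_right (by linarith) hδ0
  have k1 : K1 * z ^ (-(7 / 8) : ℝ) ≤ G * z ^ (-(7 / 8) : ℝ) :=
    mul_le_mul_of_nonneg_right (by linarith) hδ0
  rw [hyperbola 0 hz]
  exact alg_zero hG1 hl hδ0 hδ1 (by linarith) hn ((hH0' z hz).trans k0) (e2.trans k1)
    (s1.trans (mul_le_mul_of_nonneg_right k0 hn)) (s2.trans (mul_le_mul_of_nonneg_right k0 hn))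

theorem Dz_one : ∃ a b c C : ℝ, 0 < C ∧ ∀ z : ℝ, 1 ≤ z →
    |Di 1 (z ^ 3) - ((3 * Real.log z) ^ 3 / 12 + a * (3 * Real.log z) ^ 2 +
      b * (3 * Real.log z) + c)| ≤ C * (z ^ (-(7 / 8) : ℝ) * (1 + Real.log z) ^ 2) := by
  obtain ⟨γ0, K0, hK0, hH0⟩ := Hj_asymp 0
  obtain ⟨γ1, K1, hK1, hH1⟩ := Hj_asymp 1
  obtain ⟨γ2, K2, hK2, hH2⟩ := Hj_asymp 2
  obtain ⟨G, hG⟩ : ∃ G, G = 1 + |γ0| + |γ1| + K0 + K1 + K2 := ⟨_, rfl⟩
  have a0 := abs_nonneg γ0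
  have a1 := abs_nonneg γ1
  have hG1 : 1 ≤ G := by linarith
  refine ⟨1 / 2 * γ0, -(3 / 2) * γ1, 3 / 2 * γ2 + γ0 * γ1, 30 * G * G, by positivity,
    fun z hz => ?_⟩
  have hz0 : 0 < z := by linarith
  have hl : 0 ≤ Real.log z := Real.log_nonneg hz
  have hH0' : ∀ y : ℝ, 1 ≤ y → |Hj 0 y - (Real.log y + γ0)| ≤ K0 * y ^ (-(7 / 8) : ℝ) := by
    intro y hy
    have h := hH0 y hy
    have e : Real.log y ^ (0 + 1) / ((0 : ℕ) + 1 : ℝ) = Real.log y := by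
      push_cast
      ring
    rwa [e] at h
  have s1 := sum_one 1 hK1 hH1 hz
  have s2 := sum_two 1 hK0 hH0' hz
  rw [r_three] at s1
  rw [r_four] at s2
  have e2 := hH1 z hz
  have e3 : Real.log z ^ (1 + 1) / ((1 : ℕ) + 1 : ℝ) = Real.log z ^ 2 / 2 := by
    push_cast
    ring
  rw [e3] at e2
  have e4 := hH2 z hz
  have e5 : Real.log z ^ (2 + 1) / ((2 : ℕ) + 1 : ℝ) = Real.log z ^ 3 / 3 := by
    push_cast
    ring
  rw [e5] at e4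
  have hδ0 : 0 ≤ z ^ (-(7 / 8) : ℝ) := by positivity
  have hδ1 : z ^ (-(7 / 8) : ℝ) ≤ 1 := Real.rpow_le_one_of_one_le_of_nonpos hz (by norm_num)
  have hn := Hj_nonneg 0 z
  have hn1 := Hj_nonneg 1 z
  have k0 : K0 * z ^ (-(7 / 8) : ℝ) ≤ G * z ^ (-(7 / 8) : ℝ) :=
    mul_le_mul_of_nonneg_right (by linarith) hδ0
  have k1 : K1 * z ^ (-(7 / 8) : ℝ) ≤ G * z ^ (-(7 / 8) : ℝ) :=
    mul_le_mul_of_nonneg_right (by linarith) hδ0
  have k2 : K2 * z ^ (-(7 / 8) : ℝ) ≤ G * z ^ (-(7 / 8) : ℝ) :=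
    mul_le_mul_of_nonneg_right (by linarith) hδ0
  rw [hyperbola 1 hz]
  exact alg_one hG1 hl hδ0 hδ1 (by linarith) (by linarith) ((hH0' z hz).trans k0) (e2.trans k1)
    (e4.trans k2) (s1.trans (mul_le_mul_of_nonneg_right k1 hn))
    (s2.trans (mul_le_mul_of_nonneg_right k0 hn1)) hn hn1

theorem Di_small (i : ℕ) {x : ℝ} (hx : x < 1) : Di i x = 0 := by
  unfold Di
  refine Finset.sum_eq_zero fun p hp => ?_
  exfalso
  obtain ⟨h1, h2, h3⟩ := mem_Sx.1 hp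
  have h1' : (1 : ℝ) ≤ p.1 := by exact_mod_cast h1
  have h2' : (1 : ℝ) ≤ p.2 := by exact_mod_cast h2
  have h4 : (1 : ℝ) ≤ (p.1 : ℝ) ^ 2 := one_le_pow₀ h1'
  nlinarith

/-- the passage from `z` to `x` -/
theorem pass (f P : ℝ → ℝ) (C : ℝ) (hC : 0 < C) (hf : ∀ x : ℝ, x < 1 → f x = 0)
    (hP : ∃ K : ℝ, 0 < K ∧ ∀ L : ℝ, |P L| ≤ K * (1 + |L|) ^ 3)
    (h : ∀ z : ℝ, 1 ≤ z → |f (z ^ 3) - P (3 * Real.log z)| ≤
      C * (z ^ (-(7 / 8) : ℝ) * (1 + Real.log z) ^ 2)) :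
    ∃ C' : ℝ, 0 < C' ∧ ∀ x : ℝ, 0 < x → |f x - P (Real.log x)| ≤ C' * x ^ (-(1 / 4) : ℝ) := by
  obtain ⟨K, hK, hP⟩ := hP
  obtain ⟨C1, hC1, h1⟩ := log_pow_le 2 (1 / 8) (by norm_num)
  obtain ⟨C2, hC2, h2⟩ := log_pow_le 3 (1 / 4) (by norm_num)
  refine ⟨C * C1 + K * C2, by positivity, fun x hx => ?_⟩
  have hx4 : 0 < x ^ (-(1 / 4) : ℝ) := Real.rpow_pos_of_pos hx _
  by_cases hx1 : x < 1
  · rw [hf x hx1, zero_sub, abs_neg]
    refine (hP _).trans ?_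
    have h3 := h2 x⁻¹ (one_le_inv_iff₀.2 ⟨hx, hx1.le⟩)
    rw [Real.log_inv] at h3
    have h4 : |Real.log x| = -Real.log x := abs_of_nonpos (Real.log_nonpos hx.le hx1.le)
    rw [h4]
    have h5 : x⁻¹ ^ (1 / 4 : ℝ) = x ^ (-(1 / 4) : ℝ) := by
      rw [Real.inv_rpow hx.le, Real.rpow_neg hx.le]
    rw [h5] at h3
    calc K * (1 + -Real.log x) ^ 3 ≤ K * (C2 * x ^ (-(1 / 4) : ℝ)) := by gcongr
      _ = K * C2 * x ^ (-(1 / 4) : ℝ) := by ring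
      _ ≤ (C * C1 + K * C2) * x ^ (-(1 / 4) : ℝ) := by
        refine mul_le_mul_of_nonneg_right ?_ hx4.le
        have : 0 < C * C1 := by positivity
        linarith
  · rw [not_lt] at hx1
    have hz1 : (1 : ℝ) ≤ x ^ (1 / 3 : ℝ) := Real.one_le_rpow hx1 (by norm_num)
    have h3 := h (x ^ (1 / 3 : ℝ)) hz1
    have h4 : (x ^ (1 / 3 : ℝ)) ^ 3 = x := by
      rw [← Real.rpow_natCast, ← Real.rpow_mul hx.le]
      norm_num
    have h5 : 3 * Real.log (x ^ (1 / 3 : ℝ)) = Real.log x := by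
      rw [Real.log_rpow hx]
      ring
    rw [h4, h5] at h3
    have h6 := h1 (x ^ (1 / 3 : ℝ)) hz1
    have hz0 : 0 < x ^ (1 / 3 : ℝ) := by linarith
    refine h3.trans ?_
    calc C * ((x ^ (1 / 3 : ℝ)) ^ (-(7 / 8) : ℝ) * (1 + Real.log (x ^ (1 / 3 : ℝ))) ^ 2)
        ≤ C * ((x ^ (1 / 3 : ℝ)) ^ (-(7 / 8) : ℝ) * (C1 * (x ^ (1 / 3 : ℝ)) ^ (1 / 8 : ℝ))) := by
          gcongr
      _ = C * C1 * ((x ^ (1 / 3 : ℝ)) ^ (-(7 / 8) : ℝ) * (x ^ (1 / 3 : ℝ)) ^ (1 / 8 : ℝ)) := by ring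
      _ = C * C1 * x ^ (-(1 / 4) : ℝ) := by
        rw [← Real.rpow_add hz0, ← Real.rpow_mul hx.le]
        norm_num
      _ ≤ (C * C1 + K * C2) * x ^ (-(1 / 4) : ℝ) := by
        refine mul_le_mul_of_nonneg_right ?_ hx4.le
        have : 0 < K * C2 := by positivity
        linarith

theorem D_zero : ∃ a b C : ℝ, 0 < C ∧ ∀ x : ℝ, 0 < x →
    |Di 0 x - (Real.log x ^ 2 / 4 + a * Real.log x + b)| ≤ C * x ^ (-(1 / 4) : ℝ) := by
  obtain ⟨a, b, C, hC, h⟩ := Dz_zero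
  obtain ⟨C', hC', h'⟩ := pass (Di 0) (fun L => L ^ 2 / 4 + a * L + b) C hC
    (fun x hx => Di_small 0 hx) ⟨1 + |a| + |b|, by positivity, fun L => by
      have hL := abs_nonneg L
      have ha := abs_nonneg a
      have hb := abs_nonneg b
      calc |L ^ 2 / 4 + a * L + b| ≤ |L ^ 2 / 4 + a * L| + |b| := abs_add_le _ _
        _ ≤ |L ^ 2 / 4| + |a * L| + |b| := by gcongr; exact abs_add_le _ _
        _ = |L| ^ 2 / 4 + |a| * |L| + |b| := by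
          rw [abs_div, abs_mul, abs_pow, abs_of_pos (by norm_num : (0 : ℝ) < 4)]
        _ ≤ 1 * (1 + |L|) ^ 3 + |a| * (1 + |L|) ^ 3 + |b| * (1 + |L|) ^ 3 := by
          have h1 : 1 ≤ (1 + |L|) ^ 3 := one_le_pow₀ (by linarith)
          have h2 : |L| ≤ (1 + |L|) ^ 3 := by nlinarith [pow_nonneg hL 3, pow_nonneg hL 2]
          have h3 : |L| ^ 2 / 4 ≤ (1 + |L|) ^ 3 := by nlinarith [pow_nonneg hL 3, pow_nonneg hL 2]
          have h4 : |a| * |L| ≤ |a| * (1 + |L|) ^ 3 := by gcongr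
          have h5 : |b| ≤ |b| * (1 + |L|) ^ 3 := le_mul_of_one_le_right hb h1
          linarith
        _ = _ := by ring⟩ h
  exact ⟨a, b, C', hC', h'⟩

theorem D_one : ∃ a b c C : ℝ, 0 < C ∧ ∀ x : ℝ, 0 < x →
    |Di 1 x - (Real.log x ^ 3 / 12 + a * Real.log x ^ 2 + b * Real.log x + c)| ≤
      C * x ^ (-(1 / 4) : ℝ) := by
  obtain ⟨a, b, c, C, hC, h⟩ := Dz_one
  obtain ⟨C', hC', h'⟩ := pass (Di 1) (fun L => L ^ 3 / 12 + a * L ^ 2 + b * L + c) C hC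
    (fun x hx => Di_small 1 hx) ⟨1 + |a| + |b| + |c|, by positivity, fun L => by
      have hL := abs_nonneg L
      have ha := abs_nonneg a
      have hb := abs_nonneg b
      have hc := abs_nonneg c
      calc |L ^ 3 / 12 + a * L ^ 2 + b * L + c| ≤ |L ^ 3 / 12 + a * L ^ 2 + b * L| + |c| :=
          abs_add_le _ _
        _ ≤ |L ^ 3 / 12 + a * L ^ 2| + |b * L| + |c| := by gcongr; exact abs_add_le _ _
        _ ≤ |L ^ 3 / 12| + |a * L ^ 2| + |b * L| + |c| := by gcongr; exact abs_add_le _ _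
        _ = |L| ^ 3 / 12 + |a| * |L| ^ 2 + |b| * |L| + |c| := by
          rw [abs_div, abs_mul, abs_mul, abs_pow, abs_pow, abs_of_pos (by norm_num : (0 : ℝ) < 12)]
        _ ≤ 1 * (1 + |L|) ^ 3 + |a| * (1 + |L|) ^ 3 + |b| * (1 + |L|) ^ 3 +
            |c| * (1 + |L|) ^ 3 := by
          have h1 : 1 ≤ (1 + |L|) ^ 3 := one_le_pow₀ (by linarith)
          have h2 : |L| ≤ (1 + |L|) ^ 3 := by nlinarith [pow_nonneg hL 3, pow_nonneg hL 2]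
          have h3 : |L| ^ 2 ≤ (1 + |L|) ^ 3 := by nlinarith [pow_nonneg hL 3, pow_nonneg hL 2]
          have h3' : |L| ^ 3 / 12 ≤ (1 + |L|) ^ 3 := by
            nlinarith [pow_nonneg hL 3, pow_nonneg hL 2]
          have h4 : |b| * |L| ≤ |b| * (1 + |L|) ^ 3 := by gcongr
          have h4' : |a| * |L| ^ 2 ≤ |a| * (1 + |L|) ^ 3 := by gcongr
          have h5 : |c| ≤ |c| * (1 + |L|) ^ 3 := le_mul_of_one_le_right hc h1
          linarith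
        _ = _ := by ring⟩ h
  exact ⟨a, b, c, C', hC', h'⟩

end Pool.Agent.H26.CN.SSA
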