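import Pool.Agent.H31.CN.T2
import Pool.Agent.H56.CG.TF

/-!
# The functional equation of the binary theta function
-/

set_option autoImplicit false

open MeasureTheory Set Filter
open scoped Real Topology Matrix

namespace Pool.Agent.H26.CN

open Pool.Agent.H31.CN Pool.Agent.H25.HK Pool.Agent.H95.CG

/-- the matrix of the normalised form -/
noncomputable def tM (A B Δ : ℝ) : Matrix (Fin 2) (Fin 2) ℝ :=
  (Real.sqrt Δ)⁻¹ • !![2 * A, B; B, (B ^ 2 + Δ) / (2 * A)]

theorem tM_pos {A B Δ : ℝ} (hA : 0 < A) (hD : 0 < Δ) : (tM A B Δ).PosDef := by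
  have hs : 0 < Real.sqrt Δ := Real.sqrt_pos.2 hD
  refine Matrix.PosDef.smul ?_ (inv_pos.2 hs)
  refine Matrix.PosDef.of_dotProduct_mulVec_pos ?_ ?_
  · ext i j
    fin_cases i <;> fin_cases j <;> simp [Matrix.conjTranspose]
  · intro x hx
    have e : star x ⬝ᵥ (!![2 * A, B; B, (B ^ 2 + Δ) / (2 * A)] *ᵥ x) =
        ((2 * A * x 0 + B * x 1) ^ 2 + Δ * x 1 ^ 2) / (2 * A) := by
      simp only [Matrix.mulVec, dotProduct, Fin.sum_univ_two, Pi.star_apply, star_trivial,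
        Matrix.of_apply, Matrix.cons_val', Matrix.cons_val_zero, Matrix.cons_val_one,
        Matrix.cons_val_fin_one]
      field_simp
      ring
    rw [e]
    refine div_pos ?_ (by positivity)
    by_cases h1 : x 1 = 0
    · have h0 : x 0 ≠ 0 := by
        intro h0
        apply hx
        funext i
        fin_cases i
        · exact h0
        · exact h1
      rw [h1]
      have : 0 < (2 * A * x 0) ^ 2 := by positivity
      nlinarith
    · have : 0 < Δ * x 1 ^ 2 := by positivity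
      nlinarith [sq_nonneg (2 * A * x 0 + B * x 1)]

theorem tM_det {A B Δ : ℝ} (hA : 0 < A) (hD : 0 < Δ) : (tM A B Δ).det = 1 := by
  have hs : 0 < Real.sqrt Δ := Real.sqrt_pos.2 hD
  have hss : Real.sqrt Δ ^ 2 = Δ := Real.sq_sqrt hD.le
  unfold tM
  rw [Matrix.det_smul, Matrix.det_fin_two_of, Fintype.card_fin]
  rw [show 2 * A * ((B ^ 2 + Δ) / (2 * A)) - B * B = Δ by field_simp; ring]
  rw [inv_pow, hss]
  exact inv_mul_cancel₀ hD.ne'

theorem tM_inv {A B Δ : ℝ} (hA : 0 < A) (hD : 0 < Δ) :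
    (tM A B Δ)⁻¹ = (Real.sqrt Δ)⁻¹ • !![(B ^ 2 + Δ) / (2 * A), -B; -B, 2 * A] := by
  rw [Matrix.inv_def, tM_det hA hD, Ring.inverse_one, one_smul]
  unfold tM
  rw [Matrix.adjugate_smul, Fintype.card_fin, Matrix.adjugate_fin_two_of]
  simp

theorem qz_tM {A B Δ : ℝ} (hA : 0 < A) (m : Fin 2 → ℤ) :
    qz (tM A B Δ) m = 2 * (qd A B Δ (m 0, m 1) / Real.sqrt Δ) := by
  unfold qz qf tM qd
  simp only [Fin.sum_univ_two, Matrix.smul_apply, smul_eq_mul, Matrix.of_apply, Matrix.cons_val',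
    Matrix.cons_val_zero, Matrix.cons_val_one, Matrix.cons_val_fin_one]
  field_simp
  ring

theorem qz_tMi {A B Δ : ℝ} (hA : 0 < A) (hD : 0 < Δ) (m : Fin 2 → ℤ) :
    qz (tM A B Δ)⁻¹ m = 2 * (qd A B Δ (m 1, -m 0) / Real.sqrt Δ) := by
  rw [tM_inv hA hD]
  unfold qz qf qd
  simp only [Fin.sum_univ_two, Matrix.smul_apply, smul_eq_mul, Matrix.of_apply, Matrix.cons_val',
    Matrix.cons_val_zero, Matrix.cons_val_one, Matrix.cons_val_fin_one]
  push_cast
  field_simp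
  ring

theorem pf_THE : T_THE := by
  intro A B Δ t hA hD ht
  obtain ⟨-, -, -, h⟩ := Pool.Agent.H56.CG.pf_tf (Fin 2) (tM A B Δ) (tM_pos hA hD) (tM_det hA hD)
  have hts : ∀ t : ℝ, ts (tM A B Δ) t = Th A B Δ t := by
    intro t
    unfold ts Th
    rw [← (finTwoArrowEquiv ℤ).tsum_eq]
    refine tsum_congr fun m => ?_
    rw [qz_tM hA]
    congr 1
    have : (finTwoArrowEquiv ℤ) m = (m 0, m 1) := rfl
    rw [this]
    ring
  have hti : ∀ t : ℝ, ts (tM A B Δ)⁻¹ t = Th A B Δ t := by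
    intro t
    unfold ts Th
    let e : (Fin 2 → ℤ) ≃ ℤ × ℤ := (finTwoArrowEquiv ℤ).trans
      ((Equiv.prodComm ℤ ℤ).trans ((Equiv.refl ℤ).prodCongr (Equiv.neg ℤ)))
    rw [← e.tsum_eq]
    refine tsum_congr fun m => ?_
    rw [qz_tMi hA hD]
    congr 1
    have : e m = (m 1, -m 0) := rfl
    rw [this]
    ring
  obtain ⟨h1, h2⟩ := h t ht
  refine ⟨?_, ?_⟩
  · rw [← (finTwoArrowEquiv ℤ).summable_iff]
    refine h1.congr fun m => ?_
    rw [qz_tM hA]
    simp only [Function.comp_apply]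
    congr 1
    have : (finTwoArrowEquiv ℤ) m = (m 0, m 1) := rfl
    rw [this]
    ring
  · rw [hts, hti, Fintype.card_fin] at h2
    rw [h2, ← mul_assoc]
    have : t * t ^ (-((2 : ℕ) : ℝ) / 2) = 1 := by
      rw [show (-((2 : ℕ) : ℝ) / 2) = -1 by norm_num, Real.rpow_neg_one]
      exact mul_inv_cancel₀ ht.ne'
    rw [this, one_mul]

end Pool.Agent.H26.CN
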