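import Pool.Agent.H31.CN.T1

/-!
# The cut-off function
-/

set_option autoImplicit false

open MeasureTheory Set Filter
open scoped Real Topology

namespace Pool.Agent.H26.CN

open Pool.Agent.H31.CN

/-- the integrand -/
noncomputable def vg (u : ℝ) : ℝ := u ^ (-(1 / 2) : ℝ) * Real.exp (-(2 * π * u))

theorem vg_nonneg {u : ℝ} (hu : 0 ≤ u) : 0 ≤ vg u := by
  unfold vg
  positivity

theorem integrableOn_rpow_exp {r : ℝ} (hr : 0 < r) :
    IntegrableOn (fun u : ℝ => u ^ (-(1 / 2) : ℝ) * Real.exp (-(r * u))) (Ioi 0) := by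
  have h := integrableOn_rpow_mul_exp_neg_mul_rpow (s := -(1 / 2)) (p := 1) (b := r) (by norm_num)
    zero_lt_one hr
  refine h.congr_fun (fun u hu => ?_) measurableSet_Ioi
  simp only [Real.rpow_one]
  rw [neg_mul]

theorem vg_int : IntegrableOn vg (Ioi 0) :=
  integrableOn_rpow_exp (by positivity)

theorem vg_total : ∫ u in Ioi (0 : ℝ), vg u = 1 / Real.sqrt 2 := by
  have h := Real.integral_rpow_mul_exp_neg_mul_Ioi (a := 1 / 2) (r := 2 * π) (by norm_num)
    (by positivity)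
  have e : ∀ u : ℝ, vg u = u ^ ((1 / 2 : ℝ) - 1) * Real.exp (-(2 * π * u)) := by
    intro u
    unfold vg
    norm_num
  simp only [e]
  rw [h, Real.Gamma_one_half_eq, ← Real.sqrt_eq_rpow, Real.sqrt_div zero_le_one, Real.sqrt_one,
    Real.sqrt_mul (by norm_num : (0:ℝ) ≤ 2)]
  have h1 : 0 < Real.sqrt π := Real.sqrt_pos.2 Real.pi_pos
  have h2 : 0 < Real.sqrt 2 := by positivity
  field_simp

/-- the tail -/
noncomputable def VJ (x : ℝ) : ℝ := ∫ u in Ioi x, vg u

theorem VJ_eq {x : ℝ} (hx : 0 ≤ x) : VJ x = 1 / Real.sqrt 2 - ∫ u in (0 : ℝ)..x, vg u := by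
  have h := intervalIntegral.integral_interval_add_Ioi (a := 0) (b := x) (f := vg) vg_int
    (vg_int.mono_set (Ioi_subset_Ioi hx))
  rw [← vg_total, ← h]
  unfold VJ
  ring

theorem Ek_eq {x : ℝ} (hx : 0 < x) :
    ∫ t in Ioi (1 : ℝ), Real.exp (-(2 * π * x * t)) * t ^ (-(1 / 2) : ℝ) =
      VJ x / Real.sqrt x := by
  have h := integral_comp_mul_left_Ioi vg 1 hx
  rw [mul_one] at h
  have e : ∫ t in Ioi (1 : ℝ), vg (x * t) =
      x ^ (-(1 / 2) : ℝ) * ∫ t in Ioi (1 : ℝ), Real.exp (-(2 * π * x * t)) * t ^ (-(1 / 2) : ℝ) := by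
    rw [← integral_const_mul]
    refine setIntegral_congr_fun measurableSet_Ioi fun t ht => ?_
    have ht0 : (0 : ℝ) ≤ t := (zero_le_one.trans (le_of_lt ht))
    unfold vg
    rw [Real.mul_rpow hx.le ht0]
    rw [show 2 * π * (x * t) = 2 * π * x * t by ring]
    ring
  rw [e, smul_eq_mul] at h
  change _ = x⁻¹ * VJ x at h
  have hs : x ^ (-(1 / 2) : ℝ) = (Real.sqrt x)⁻¹ := by
    rw [Real.rpow_neg hx.le, ← Real.sqrt_eq_rpow]
  rw [hs] at h
  have hsx : 0 < Real.sqrt x := Real.sqrt_pos.2 hx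
  have hxx : Real.sqrt x * Real.sqrt x = x := Real.mul_self_sqrt hx.le
  obtain ⟨s, hs'⟩ : ∃ s, s = Real.sqrt x := ⟨_, rfl⟩
  rw [← hs'] at hsx hxx h ⊢
  rw [← hxx] at h
  rw [eq_div_iff hsx.ne']
  have hs0 : s ≠ 0 := hsx.ne'
  have h2 := congrArg (fun z => z * (s * s)) h
  rw [← hxx]
  generalize (∫ t in Ioi (1 : ℝ), Real.exp (-(2 * π * (s * s) * t)) * t ^ (-(1 / 2) : ℝ)) = w at h2 ⊢
  generalize VJ (s * s) = j at h2 ⊢
  field_simp at h2
  linarith

/-- the closed form -/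
noncomputable def VF (x : ℝ) : ℝ :=
  Real.sqrt 2 * (1 / Real.sqrt 2 - ∫ u in (0 : ℝ)..x, vg u) +
    2 * Real.sqrt 2 * (Real.sqrt x * ((1 - 4 * π * x) * Real.exp (-(2 * π * x))))

theorem Vk_eq {x : ℝ} (hx : 0 < x) : Vk x = VF x := by
  unfold Vk Ek VF
  rw [Ek_eq hx, VJ_eq hx.le, Real.sqrt_mul (by norm_num : (0:ℝ) ≤ 2)]
  have hsx : 0 < Real.sqrt x := Real.sqrt_pos.2 hx
  have h2 : 0 < Real.sqrt 2 := by positivity
  field_simp

theorem vg_contOn : ContinuousOn vg (Ioi 0) := by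
  intro u hu
  unfold vg
  have hu' : u ≠ 0 := ne_of_gt hu
  exact ((Real.continuousAt_rpow_const u _ (Or.inl hu')).mul (by fun_prop)).continuousWithinAt

theorem vg_interval (a b : ℝ) (ha : 0 ≤ a) (hb : 0 ≤ b) : IntervalIntegrable vg volume a b := by
  rw [intervalIntegrable_iff]
  refine vg_int.mono_set fun u hu => ?_
  rw [mem_uIoc] at hu
  rcases hu with h | h
  · exact lt_of_le_of_lt ha h.1
  · exact lt_of_le_of_lt hb h.1

theorem VF_deriv {x : ℝ} (hx : 0 < x) :
    HasDerivAt VF (16 * π * Real.sqrt 2 * (Real.sqrt x * ((π * x - 1) *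
      Real.exp (-(2 * π * x))))) x := by
  have h1 : HasDerivAt (fun y => ∫ u in (0 : ℝ)..y, vg u) (vg x) x := by
    refine intervalIntegral.integral_hasDerivAt_right (vg_interval 0 x le_rfl hx.le) ?_ ?_
    · exact vg_contOn.stronglyMeasurableAtFilter isOpen_Ioi x hx
    · exact vg_contOn.continuousAt (Ioi_mem_nhds hx)
  have h2 : HasDerivAt (fun y : ℝ => Real.sqrt y) (1 / (2 * Real.sqrt x)) x :=
    Real.hasDerivAt_sqrt hx.ne'
  have h3 : HasDerivAt (fun y : ℝ => (1 - 4 * π * y)) (-(4 * π)) x := by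
    simpa using ((hasDerivAt_id x).const_mul (4 * π)).const_sub 1
  have h4 : HasDerivAt (fun y : ℝ => Real.exp (-(2 * π * y)))
      (Real.exp (-(2 * π * x)) * (-(2 * π))) x := by
    have : HasDerivAt (fun y : ℝ => -(2 * π * y)) (-(2 * π)) x := by
      have h0 : HasDerivAt (fun y : ℝ => (-(2 * π)) * y) (-(2 * π)) x := by
        simpa using (hasDerivAt_id x).const_mul (-(2 * π))
      refine h0.congr_of_eventuallyEq (Eventually.of_forall fun y => ?_)
      ring
    exact this.exp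
  have h := ((h1.const_sub (1 / Real.sqrt 2)).const_mul (Real.sqrt 2)).add
    ((h2.mul (h3.mul h4)).const_mul (2 * Real.sqrt 2))
  refine h.congr_deriv ?_
  have hsx : 0 < Real.sqrt x := Real.sqrt_pos.2 hx
  have hxx : Real.sqrt x ^ 2 = x := Real.sq_sqrt hx.le
  have hs : x ^ (-(1 / 2) : ℝ) = (Real.sqrt x)⁻¹ := by
    rw [Real.rpow_neg hx.le, ← Real.sqrt_eq_rpow]
  unfold vg
  rw [hs]
  simp only [Pi.mul_apply]
  obtain ⟨s, hs'⟩ : ∃ s, s = Real.sqrt x := ⟨_, rfl⟩
  rw [← hs'] at hsx hxx ⊢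
  rw [← hxx]
  have hs0 : s ≠ 0 := hsx.ne'
  field_simp
  ring

theorem VF_cont (b : ℝ) (hb : 0 ≤ b) : ContinuousOn VF (Icc 0 b) := by
  unfold VF
  have h1 : ContinuousOn (fun x => ∫ u in (0 : ℝ)..x, vg u) (Icc 0 b) := by
    have := intervalIntegral.continuousOn_primitive_interval' (vg_interval 0 b le_rfl hb)
      (a := 0) (by simp)
    rwa [uIcc_of_le hb] at this
  refine (continuousOn_const.mul (continuousOn_const.sub h1)).add ?_
  exact (by fun_prop : Continuous fun x : ℝ => 2 * Real.sqrt 2 * (Real.sqrt x *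
    ((1 - 4 * π * x) * Real.exp (-(2 * π * x))))).continuousOn

theorem sq_le_exp {x : ℝ} (hx : 0 ≤ x) : (1 + x) ^ 2 ≤ 32 * Real.exp (x / 4) := by
  have h := Real.quadratic_le_exp_of_nonneg (x := x / 4) (by positivity)
  nlinarith

theorem exp_split {x : ℝ} (hx : 0 ≤ x) :
    (1 + x) ^ 2 * Real.exp (-(2 * π * x)) ≤ 32 * Real.exp (-(6 * x)) := by
  have h1 := sq_le_exp hx
  have h2 : Real.exp (-(2 * π * x)) ≤ Real.exp (-(6 * x) - x / 4) := by
    rw [Real.exp_le_exp]
    have := Real.pi_gt_d2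
    nlinarith
  calc (1 + x) ^ 2 * Real.exp (-(2 * π * x)) ≤ (32 * Real.exp (x / 4)) *
        Real.exp (-(6 * x) - x / 4) := by gcongr
    _ = 32 * Real.exp (-(6 * x)) := by
      rw [mul_assoc, ← Real.exp_add]
      congr 2
      ring

theorem sqrt_le_one_add {x : ℝ} (hx : 0 ≤ x) : Real.sqrt x ≤ 1 + x := by
  rw [Real.sqrt_le_left (by linarith)]
  nlinarith

theorem term_bound {x c d : ℝ} (hx : 0 ≤ x) (hc : |c| ≤ 16) (hd : |d| ≤ 16) :
    |Real.sqrt x * ((c + d * x) * Real.exp (-(2 * π * x)))| ≤ 512 * Real.exp (-(6 * x)) := by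
  rw [abs_mul, abs_mul, abs_of_nonneg (Real.sqrt_nonneg x), abs_of_pos (Real.exp_pos _)]
  have h1 : |c + d * x| ≤ 16 * (1 + x) := by
    calc |c + d * x| ≤ |c| + |d * x| := abs_add_le _ _
      _ = |c| + |d| * x := by rw [abs_mul, abs_of_nonneg hx]
      _ ≤ 16 + 16 * x := by nlinarith
      _ = _ := by ring
  have h2 := exp_split hx
  have h3 := sqrt_le_one_add hx
  calc Real.sqrt x * (|c + d * x| * Real.exp (-(2 * π * x)))
      ≤ (1 + x) * ((16 * (1 + x)) * Real.exp (-(2 * π * x))) := by gcongr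
    _ = 16 * ((1 + x) ^ 2 * Real.exp (-(2 * π * x))) := by ring
    _ ≤ 16 * (32 * Real.exp (-(6 * x))) := by gcongr
    _ = _ := by ring

theorem VJ_bound {x : ℝ} (hx : 0 < x) : 0 ≤ VJ x ∧ VJ x ≤ Real.exp (-(6 * x)) *
    ∫ u in Ioi (0 : ℝ), u ^ (-(1 / 2) : ℝ) * Real.exp (-((2 * π - 6) * u)) := by
  have hr : 0 < 2 * π - 6 := by
    have := Real.pi_gt_d2
    linarith
  have hi := integrableOn_rpow_exp hr
  constructor
  · exact setIntegral_nonneg measurableSet_Ioi fun u hu => vg_nonneg (hx.le.trans (le_of_lt hu))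
  · have hi' := hi.mono_set (Ioi_subset_Ioi hx.le)
    calc VJ x ≤ ∫ u in Ioi x, Real.exp (-(6 * x)) *
          (u ^ (-(1 / 2) : ℝ) * Real.exp (-((2 * π - 6) * u))) := by
          unfold VJ
          refine setIntegral_mono_on (vg_int.mono_set (Ioi_subset_Ioi hx.le))
            (hi'.const_mul _) measurableSet_Ioi fun u hu => ?_
          have hu0 : 0 < u := hx.trans hu
          have hux : x < u := hu
          unfold vg
          rw [mul_left_comm]
          refine mul_le_mul_of_nonneg_left ?_ (by positivity)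
          rw [← Real.exp_add, Real.exp_le_exp]
          nlinarith
      _ = Real.exp (-(6 * x)) * ∫ u in Ioi x, (u ^ (-(1 / 2) : ℝ) *
          Real.exp (-((2 * π - 6) * u))) := integral_const_mul _ _
      _ ≤ _ := by
          refine mul_le_mul_of_nonneg_left ?_ (Real.exp_pos _).le
          refine setIntegral_mono_set hi ?_ (Ioi_subset_Ioi hx.le).eventuallyLE
          refine (ae_restrict_iff' measurableSet_Ioi).2 (Eventually.of_forall fun u hu => ?_)
          have : (0 : ℝ) < u := hu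
          simp only [Pi.zero_apply]
          positivity

theorem pf_VK : T_VK := by
  set c₁ := ∫ u in Ioi (0 : ℝ), u ^ (-(1 / 2) : ℝ) * Real.exp (-((2 * π - 6) * u)) with hc₁
  have hc₁0 : 0 ≤ c₁ := by
    refine setIntegral_nonneg measurableSet_Ioi fun u hu => ?_
    have : (0 : ℝ) < u := hu
    positivity
  have hpi4 := Real.pi_lt_d2
  have hpi3 := Real.pi_gt_d2
  have hs2 : Real.sqrt 2 ≤ 2 := by
    rw [Real.sqrt_le_left (by norm_num)]
    norm_num
  have hs20 : 0 ≤ Real.sqrt 2 := Real.sqrt_nonneg 2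
  have hder : ∀ x : ℝ, 0 < x → HasDerivAt Vk (16 * π * Real.sqrt 2 * (Real.sqrt x *
      ((π * x - 1) * Real.exp (-(2 * π * x))))) x := by
    intro x hx
    refine (VF_deriv hx).congr_of_eventuallyEq ?_
    filter_upwards [Ioi_mem_nhds hx] with y hy using Vk_eq hy
  have hdb : ∀ x : ℝ, 0 < x → |16 * π * Real.sqrt 2 * (Real.sqrt x *
      ((π * x - 1) * Real.exp (-(2 * π * x))))| ≤ 16 * 4 * 2 * 512 * Real.exp (-(6 * x)) := by
    intro x hx
    have h := term_bound (c := -1) (d := π) hx.le (by norm_num)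
      (by rw [abs_of_pos Real.pi_pos]; linarith)
    rw [show -1 + π * x = π * x - 1 by ring] at h
    rw [abs_mul, abs_of_nonneg (by positivity : (0 : ℝ) ≤ 16 * π * Real.sqrt 2)]
    calc 16 * π * Real.sqrt 2 * |Real.sqrt x * ((π * x - 1) * Real.exp (-(2 * π * x)))|
        ≤ 16 * 4 * 2 * (512 * Real.exp (-(6 * x))) := by
          gcongr
          linarith
      _ = _ := by ring
  refine ⟨2 * c₁ + 16 * 4 * 2 * 512, by positivity, ?_, ?_, ?_, ?_⟩
  · intro x hx
    obtain ⟨h1, h2⟩ := VJ_bound hx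
    have h3 := term_bound (c := 1) (d := -(4 * π)) hx.le (by norm_num)
      (by rw [abs_neg, abs_of_pos (by positivity)]; linarith)
    rw [show 1 + -(4 * π) * x = 1 - 4 * π * x by ring] at h3
    rw [Vk_eq hx]
    unfold VF
    rw [← VJ_eq hx.le]
    calc |Real.sqrt 2 * VJ x + 2 * Real.sqrt 2 * (Real.sqrt x * ((1 - 4 * π * x) *
          Real.exp (-(2 * π * x))))| ≤ |Real.sqrt 2 * VJ x| + |2 * Real.sqrt 2 * (Real.sqrt x *
          ((1 - 4 * π * x) * Real.exp (-(2 * π * x))))| := abs_add_le _ _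
      _ ≤ 2 * (Real.exp (-(6 * x)) * c₁) + 2 * 2 * (512 * Real.exp (-(6 * x))) := by
        rw [abs_mul, abs_mul (2 * Real.sqrt 2), abs_of_nonneg hs20, abs_of_nonneg h1,
          abs_of_nonneg (by positivity : (0 : ℝ) ≤ 2 * Real.sqrt 2)]
        gcongr
      _ ≤ _ := by
        nlinarith [Real.exp_pos (-(6 * x))]
  · intro x hx
    rw [Vk_eq hx]
    obtain ⟨c, hc, hc'⟩ := exists_hasDerivAt_eq_slope VF (fun x => 16 * π * Real.sqrt 2 *
      (Real.sqrt x * ((π * x - 1) * Real.exp (-(2 * π * x))))) hx (VF_cont x hx.le)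
      (fun y hy => VF_deriv hy.1)
    have h0 : VF 0 = 1 := by
      unfold VF
      simp
    rw [h0, sub_zero, eq_div_iff hx.ne'] at hc'
    rw [← hc', abs_mul, abs_of_pos hx]
    refine mul_le_mul_of_nonneg_right ?_ hx.le
    refine (hdb c hc.1).trans ?_
    have : Real.exp (-(6 * c)) ≤ 1 := Real.exp_le_one_iff.2 (by linarith [hc.1])
    nlinarith
  · intro x hx
    refine ⟨(hder x hx).differentiableAt, ?_⟩
    rw [(hder x hx).deriv]
    refine (hdb x hx).trans ?_
    nlinarith [Real.exp_pos (-(6 * x))]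
  · have : ContinuousOn (fun x : ℝ => 16 * π * Real.sqrt 2 * (Real.sqrt x *
      ((π * x - 1) * Real.exp (-(2 * π * x))))) (Ioi 0) :=
      (by fun_prop : Continuous fun x : ℝ => 16 * π * Real.sqrt 2 * (Real.sqrt x *
        ((π * x - 1) * Real.exp (-(2 * π * x))))).continuousOn
    exact this.congr fun x hx => (hder x hx).deriv

end Pool.Agent.H26.CN
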